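import Mathlib

/-!
Tripartite triple systems closed under edge operations (few subpowers): the algebra.
-/

set_option autoImplicit false
set_option linter.unusedSectionVars false

open Finset Relation

namespace Q112.ED

/-- The terms derived from an edge operation: `p` and `s` with a special position `i0`. -/
structure Good {ι D : Type*} [DecidableEq ι] (i0 : ι) (p : D → D → D → D) (s : (ι → D) → D) :
    Prop where
  p1 : ∀ x y, p x y y = x
  s0 : ∀ x y, s (Function.update (fun _ => y) i0 x) = p y y x
  s1 : ∀ i, i ≠ i0 → ∀ x y, s (Function.update (fun _ => y) i x) = y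
  dd : ∀ x y, p x x (p x x y) = p x x y

variable {X Y Z : Type*} [DecidableEq X] [DecidableEq Y] [DecidableEq Z]

/-- members of `H` with the same first or the same second coordinate -/
def R (H : Finset (X × Y × Z)) (a b : X × Y × Z) : Prop :=
  a ∈ H ∧ b ∈ H ∧ (a.1 = b.1 ∨ a.2.1 = b.2.1)

/-- the same with the same third coordinate -/
def Rz (H : Finset (X × Y × Z)) (a b : X × Y × Z) : Prop :=
  R H a b ∧ a.2.2 = b.2.2

lemma R.symm {H : Finset (X × Y × Z)} {a b : X × Y × Z} (h : R H a b) : R H b a :=
  ⟨h.2.1, h.1, h.2.2.imp Eq.symm Eq.symm⟩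

lemma Rz.symm {H : Finset (X × Y × Z)} {a b : X × Y × Z} (h : Rz H a b) : Rz H b a :=
  ⟨h.1.symm, h.2.symm⟩

lemma RR.symm {H : Finset (X × Y × Z)} {a b : X × Y × Z} (h : ReflTransGen (R H) a b) :
    ReflTransGen (R H) b a := by
  induction h with
  | refl => exact ReflTransGen.refl
  | tail _ hbc ih => exact ReflTransGen.head hbc.symm ih

lemma RRz.symm {H : Finset (X × Y × Z)} {a b : X × Y × Z} (h : ReflTransGen (Rz H) a b) :
    ReflTransGen (Rz H) b a := by
  induction h with
  | refl => exact ReflTransGen.refl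
  | tail _ hbc ih => exact ReflTransGen.head hbc.symm ih

lemma RRz.toR {H : Finset (X × Y × Z)} {a b : X × Y × Z} (h : ReflTransGen (Rz H) a b) :
    ReflTransGen (R H) a b := by
  induction h with
  | refl => exact ReflTransGen.refl
  | tail _ hbc ih => exact ih.tail hbc.1

lemma RRz.z {H : Finset (X × Y × Z)} {a b : X × Y × Z} (h : ReflTransGen (Rz H) a b) :
    a.2.2 = b.2.2 := by
  induction h with
  | refl => rfl
  | tail _ hbc ih => exact ih.trans hbc.2

lemma RR.mem {H : Finset (X × Y × Z)} {a b : X × Y × Z} (ha : a ∈ H) (h : ReflTransGen (R H) a b) :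
    b ∈ H := by
  induction h with
  | refl => exact ha
  | tail _ hbc _ => exact hbc.2.1

/-- the data of the proof: a triple system with operations -/
structure Sys {ι : Type*} [DecidableEq ι] (i0 : ι) (H : Finset (X × Y × Z))
    (pX : X → X → X → X) (pY : Y → Y → Y → Y) (pZ : Z → Z → Z → Z)
    (sX : (ι → X) → X) (sY : (ι → Y) → Y) (sZ : (ι → Z) → Z) : Prop where
  gX : Good i0 pX sX
  gY : Good i0 pY sY
  gZ : Good i0 pZ sZ
  pcl : ∀ a ∈ H, ∀ b ∈ H, ∀ c ∈ H, (pX a.1 b.1 c.1, pY a.2.1 b.2.1 c.2.1, pZ a.2.2 b.2.2 c.2.2) ∈ H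
  scl : ∀ a : ι → X × Y × Z, (∀ i, a i ∈ H) →
    (sX fun i => (a i).1, sY fun i => (a i).2.1, sZ fun i => (a i).2.2) ∈ H

section
variable {ι : Type*} [DecidableEq ι] [Fintype ι] {i0 : ι} {H : Finset (X × Y × Z)}
    {pX : X → X → X → X} {pY : Y → Y → Y → Y} {pZ : Z → Z → Z → Z}
    {sX : (ι → X) → X} {sY : (ι → Y) → Y} {sZ : (ι → Z) → Z}

/-- the ternary operation on triples -/
def P (pX : X → X → X → X) (pY : Y → Y → Y → Y) (pZ : Z → Z → Z → Z) (a b c : X × Y × Z) : X × Y × Z :=
  (pX a.1 b.1 c.1, pY a.2.1 b.2.1 c.2.1, pZ a.2.2 b.2.2 c.2.2)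

/-- the operation `s` on triples -/
def S (sX : (ι → X) → X) (sY : (ι → Y) → Y) (sZ : (ι → Z) → Z) (a : ι → X × Y × Z) : X × Y × Z :=
  (sX fun i => (a i).1, sY fun i => (a i).2.1, sZ fun i => (a i).2.2)

lemma Good.pid {D : Type*} {p : D → D → D → D} {s : (ι → D) → D} (g : Good i0 p s) (x : D) :
    p x x x = x := g.p1 x x

lemma Good.sid {D : Type*} {p : D → D → D → D} {s : (ι → D) → D} (g : Good i0 p s) (x : D) :
    s (fun _ => x) = x := by
  have h := g.s0 x x
  rwa [Function.update_eq_self_iff.2 rfl, g.pid] at h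

variable (hS : Sys i0 H pX pY pZ sX sY sZ)
include hS

lemma P_idem (a : X × Y × Z) : P pX pY pZ a a a = a := by
  unfold P
  rw [hS.gX.pid, hS.gY.pid, hS.gZ.pid]

lemma P_mem {a b c : X × Y × Z} (ha : a ∈ H) (hb : b ∈ H) (hc : c ∈ H) : P pX pY pZ a b c ∈ H :=
  hS.pcl a ha b hb c hc

/-- changing the first argument -/
lemma P_conn1 {a a' b c : X × Y × Z} (hb : b ∈ H) (hc : c ∈ H) (h : ReflTransGen (R H) a a') :
    ReflTransGen (R H) (P pX pY pZ a b c) (P pX pY pZ a' b c) := by
  refine ReflTransGen.lift (fun g => P pX pY pZ g b c) ?_ _ _ h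
  intro u v huv
  refine ⟨P_mem hS huv.1 hb hc, P_mem hS huv.2.1 hb hc, ?_⟩
  rcases huv.2.2 with h1 | h1
  · left; simp only [P]; rw [h1]
  · right; simp only [P]; rw [h1]

lemma P_conn2 {a b b' c : X × Y × Z} (ha : a ∈ H) (hc : c ∈ H) (h : ReflTransGen (R H) b b') :
    ReflTransGen (R H) (P pX pY pZ a b c) (P pX pY pZ a b' c) := by
  refine ReflTransGen.lift (fun g => P pX pY pZ a g c) ?_ _ _ h
  intro u v huv
  refine ⟨P_mem hS ha huv.1 hc, P_mem hS ha huv.2.1 hc, ?_⟩
  rcases huv.2.2 with h1 | h1
  · left; simp only [P]; rw [h1]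
  · right; simp only [P]; rw [h1]

lemma P_conn3 {a b c c' : X × Y × Z} (ha : a ∈ H) (hb : b ∈ H) (h : ReflTransGen (R H) c c') :
    ReflTransGen (R H) (P pX pY pZ a b c) (P pX pY pZ a b c') := by
  refine ReflTransGen.lift (fun g => P pX pY pZ a b g) ?_ _ _ h
  intro u v huv
  refine ⟨P_mem hS ha hb huv.1, P_mem hS ha hb huv.2.1, ?_⟩
  rcases huv.2.2 with h1 | h1
  · left; simp only [P]; rw [h1]
  · right; simp only [P]; rw [h1]

/-- the component of `h` is closed under `P` -/
lemma P_conn {h a b c : X × Y × Z} (hh : h ∈ H) (ha : ReflTransGen (R H) h a)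
    (hb : ReflTransGen (R H) h b) (hc : ReflTransGen (R H) h c) :
    ReflTransGen (R H) h (P pX pY pZ a b c) := by
  have h1 := P_conn1 hS hh hh ha
  have h2 := P_conn2 hS (RR.mem hh ha) hh hb
  have h3 := P_conn3 hS (RR.mem hh ha) (RR.mem hh hb) hc
  rw [P_idem hS] at h1
  exact (h1.trans h2).trans h3

/-- the chain argument: `d h' h` and `h` are connected in the link -/
lemma chain {h h' : X × Y × Z} (hh : h ∈ H) (hh' : h' ∈ H) (hz : h.2.2 = h'.2.2)
    (hR : ReflTransGen (R H) h h') : ReflTransGen (Rz H) h (P pX pY pZ h' h' h) := by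
  have key : ∀ I : Finset ι, i0 ∉ I → ReflTransGen (Rz H) h
      (S sX sY sZ fun i => if i ∈ I then h' else h) := by
    intro I
    induction I using Finset.induction_on with
    | empty =>
      intro _
      have : S sX sY sZ (fun _ => h) = h := by
        unfold S
        rw [hS.gX.sid, hS.gY.sid, hS.gZ.sid]
      simp only [notMem_empty, if_false, this]
      exact ReflTransGen.refl
    | insert l I hl ih =>
      intro hi
      rw [mem_insert, not_or] at hi
      refine (ih hi.2).trans ?_
      let F : X × Y × Z → X × Y × Z := fun g => S sX sY sZ fun i => if i = l then g else if i ∈ I then h' else h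
      have hmem : ∀ g ∈ H, F g ∈ H := by
        intro g hg
        refine hS.scl _ fun i => ?_
        change (if i = l then g else if i ∈ I then h' else h) ∈ H
        split_ifs
        · exact hg
        · exact hh'
        · exact hh
      have hzz : ∀ g, (F g).2.2 = h.2.2 := by
        intro g
        have e : (fun i => (if i = l then g else if i ∈ I then h' else h).2.2) =
            Function.update (fun _ => h.2.2) l g.2.2 := by
          ext i
          by_cases h1 : i = l
          · rw [if_pos h1, h1, Function.update_self]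
          · rw [if_neg h1, Function.update_of_ne h1]
            split_ifs
            · exact hz.symm
            · rfl
        change sZ (fun i => (if i = l then g else if i ∈ I then h' else h).2.2) = h.2.2
        rw [e]
        exact hS.gZ.s1 l (fun h1 => hi.1 h1.symm) _ _
      have h1 : F h = S sX sY sZ fun i => if i ∈ I then h' else h := by
        change S sX sY sZ _ = S sX sY sZ _
        congr 1
        ext1 i
        by_cases h1 : i = l
        · rw [if_pos h1, h1, if_neg hl]
        · rw [if_neg h1]
      have h2 : F h' = S sX sY sZ fun i => if i ∈ insert l I then h' else h := by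
        change S sX sY sZ _ = S sX sY sZ _
        congr 1
        ext1 i
        by_cases h1 : i = l
        · rw [if_pos h1, if_pos (by rw [h1]; exact mem_insert_self _ _)]
        · rw [if_neg h1]
          by_cases h2 : i ∈ I
          · rw [if_pos h2, if_pos (mem_insert_of_mem h2)]
          · rw [if_neg h2, if_neg (by rw [mem_insert, not_or]; exact ⟨h1, h2⟩)]
      rw [← h1, ← h2]
      refine ReflTransGen.lift F ?_ _ _ hR
      intro a b hab
      refine ⟨⟨hmem a hab.1, hmem b hab.2.1, ?_⟩, by rw [hzz, hzz]⟩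
      rcases hab.2.2 with h3 | h3
      · left
        change sX (fun i => (if i = l then a else if i ∈ I then h' else h).1) =
          sX (fun i => (if i = l then b else if i ∈ I then h' else h).1)
        congr 1
        ext i
        split_ifs
        · exact h3
        · rfl
        · rfl
      · right
        change sY (fun i => (if i = l then a else if i ∈ I then h' else h).2.1) =
          sY (fun i => (if i = l then b else if i ∈ I then h' else h).2.1)
        congr 1
        ext i
        split_ifs
        · exact h3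
        · rfl
        · rfl
  have h1 := key (univ.erase i0) (notMem_erase _ _)
  have e : (fun i => if i ∈ univ.erase i0 then h' else h) = Function.update (fun _ => h') i0 h := by
    ext1 i
    by_cases h2 : i = i0
    · rw [h2, if_neg (notMem_erase _ _), Function.update_self]
    · rw [if_pos (mem_erase.2 ⟨h2, mem_univ _⟩), Function.update_of_ne h2]
  rw [e] at h1
  have e2 : S sX sY sZ (Function.update (fun _ => h') i0 h) = P pX pY pZ h' h' h := by
    unfold S P
    have e3 : (fun i => (Function.update (fun _ : ι => h') i0 h i).1) =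
        Function.update (fun _ => h'.1) i0 h.1 := by
      ext i
      by_cases h2 : i = i0
      · rw [h2, Function.update_self, Function.update_self]
      · rw [Function.update_of_ne h2, Function.update_of_ne h2]
    have e4 : (fun i => (Function.update (fun _ : ι => h') i0 h i).2.1) =
        Function.update (fun _ => h'.2.1) i0 h.2.1 := by
      ext i
      by_cases h2 : i = i0
      · rw [h2, Function.update_self, Function.update_self]
      · rw [Function.update_of_ne h2, Function.update_of_ne h2]
    have e5 : (fun i => (Function.update (fun _ : ι => h') i0 h i).2.2) =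
        Function.update (fun _ => h'.2.2) i0 h.2.2 := by
      ext i
      by_cases h2 : i = i0
      · rw [h2, Function.update_self, Function.update_self]
      · rw [Function.update_of_ne h2, Function.update_of_ne h2]
    rw [e3, e4, e5, hS.gX.s0, hS.gY.s0, hS.gZ.s0]
  rwa [e2] at h1

/-- the rectangle argument: for `w` connected with `h` there are members of `H` with the first
coordinate of `h` and the second coordinate of `d h w`, and conversely -/
lemma rect {h w : X × Y × Z} (hh : h ∈ H) (hR : ReflTransGen (R H) h w) :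
    (∃ g, ReflTransGen (R H) h g ∧ g.1 = h.1 ∧ g.2.1 = (P pX pY pZ h h w).2.1) ∧
    (∃ g, ReflTransGen (R H) h g ∧ g.1 = (P pX pY pZ h h w).1 ∧ g.2.1 = h.2.1) := by
  induction hR with
  | refl =>
    rw [P_idem hS]
    exact ⟨⟨h, ReflTransGen.refl, rfl, rfl⟩, ⟨h, ReflTransGen.refl, rfl, rfl⟩⟩
  | @tail w w' hw hww ih =>
    obtain ⟨⟨g1, hg1, hg1x, hg1y⟩, ⟨g2, hg2, hg2x, hg2y⟩⟩ := ih
    have hw' : ReflTransGen (R H) h w' := hw.tail hww
    have hv : ReflTransGen (R H) h (P pX pY pZ h h w') :=
      P_conn hS hh ReflTransGen.refl ReflTransGen.refl hw'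
    rcases hww.2.2 with h1 | h1
    · -- the same first coordinate
      have hx : (P pX pY pZ h h w).1 = (P pX pY pZ h h w').1 := by
        simp only [P]; rw [h1]
      refine ⟨⟨P pX pY pZ h g2 (P pX pY pZ h h w'), P_conn hS hh ReflTransGen.refl hg2 hv, ?_, ?_⟩,
        ⟨g2, hg2, hg2x.trans hx, hg2y⟩⟩
      · change pX h.1 g2.1 (P pX pY pZ h h w').1 = h.1
        rw [hg2x, hx]
        exact hS.gX.p1 _ _
      · change pY h.2.1 g2.2.1 (P pX pY pZ h h w').2.1 = (P pX pY pZ h h w').2.1
        rw [hg2y]
        exact hS.gY.dd _ _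
    · have hy : (P pX pY pZ h h w).2.1 = (P pX pY pZ h h w').2.1 := by
        simp only [P]; rw [h1]
      refine ⟨⟨g1, hg1, hg1x, hg1y.trans hy⟩,
        ⟨P pX pY pZ h g1 (P pX pY pZ h h w'), P_conn hS hh ReflTransGen.refl hg1 hv, ?_, ?_⟩⟩
      · change pX h.1 g1.1 (P pX pY pZ h h w').1 = (P pX pY pZ h h w').1
        rw [hg1x]
        exact hS.gX.dd _ _
      · change pY h.2.1 g1.2.1 (P pX pY pZ h h w').2.1 = h.2.1
        rw [hg1y, hy]
        exact hS.gY.p1 _ _

end

end Q112.ED
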