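import Pool.Agent.Q112.ED.Grow

/-!
Tripartite triple systems closed under edge operations: counting, iteration, Latin squares.
-/

set_option autoImplicit false
set_option linter.unusedSectionVars false

open Finset Relation

namespace Q112.ED

section count
variable {X Y Z : Type*} [DecidableEq X] [DecidableEq Y] [DecidableEq Z]

/-- counting (after helper123) -/
theorem count [Fintype X] [Fintype Y] [Fintype Z] (H : Finset (X × Y × Z)) (D1 D2 : ℕ)
    (hxy : ∀ x y, (H.filter fun g => g.1 = x ∧ g.2.1 = y).card ≤ D1)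
    (hz : ∀ h ∈ H, (L H h).card ≤ D2) :
    H.card ^ 2 ≤ D1 * D2 * (Fintype.card X * Fintype.card Y * Fintype.card Z) := by
  classical
  let c : X × Y × Z → Set (X × Y × Z) := fun h => {g | ReflTransGen (R H) h g}
  have hc : ∀ a b, ReflTransGen (R H) a b → c a = c b := by
    intro a b hab
    ext g
    exact ⟨fun h => (RR.symm hab).trans h, fun h => hab.trans h⟩
  have hc' : ∀ a b, c a = c b → ReflTransGen (R H) a b := by
    intro a b hab
    have : b ∈ c b := ReflTransGen.refl
    rw [← hab] at this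
    exact this
  set I := H.image c with hI
  let Hi : Set (X × Y × Z) → Finset (X × Y × Z) := fun i => H.filter fun h => c h = i
  let xi : Set (X × Y × Z) → Finset X := fun i => (Hi i).image fun g => g.1
  let yi : Set (X × Y × Z) → Finset Y := fun i => (Hi i).image fun g => g.2.1
  have hsumH : H.card = ∑ i ∈ I, (Hi i).card := card_eq_sum_card_image c H
  have hsumx : ∑ i ∈ I, (xi i).card ≤ Fintype.card X := by
    rw [← card_biUnion]
    · exact card_le_univ _
    · intro i _ j _ hij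
      change Disjoint (xi i) (xi j)
      rw [disjoint_left]
      intro x hx hx'
      obtain ⟨g, hg, rfl⟩ := mem_image.1 hx
      obtain ⟨g', hg', hgg'⟩ := mem_image.1 hx'
      rw [mem_filter] at hg hg'
      apply hij
      rw [← hg.2, ← hg'.2]
      exact hc _ _ (ReflTransGen.single ⟨hg.1, hg'.1, Or.inl hgg'.symm⟩)
  have hsumy : ∑ i ∈ I, (yi i).card ≤ Fintype.card Y := by
    rw [← card_biUnion]
    · exact card_le_univ _
    · intro i _ j _ hij
      change Disjoint (yi i) (yi j)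
      rw [disjoint_left]
      intro x hx hx'
      obtain ⟨g, hg, rfl⟩ := mem_image.1 hx
      obtain ⟨g', hg', hgg'⟩ := mem_image.1 hx'
      rw [mem_filter] at hg hg'
      apply hij
      rw [← hg.2, ← hg'.2]
      exact hc _ _ (ReflTransGen.single ⟨hg.1, hg'.1, Or.inr hgg'.symm⟩)
  have h1 : ∀ i, (Hi i).card ≤ D1 * ((xi i).card * (yi i).card) := by
    intro i
    rw [← card_product]
    refine card_le_mul_card_image_of_maps_to (f := fun g => (g.1, g.2.1)) ?_ D1 ?_
    · intro g hg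
      exact mem_product.2 ⟨mem_image.2 ⟨g, hg, rfl⟩, mem_image.2 ⟨g, hg, rfl⟩⟩
    · intro p _
      refine (card_le_card ?_).trans (hxy p.1 p.2)
      intro g hg
      rw [mem_filter] at hg ⊢
      exact ⟨(mem_filter.1 hg.1).1, congrArg Prod.fst hg.2, congrArg Prod.snd hg.2⟩
  have h2 : ∀ i, (Hi i).card ≤ D2 * Fintype.card Z := by
    intro i
    rw [← card_univ (α := Z)]
    refine card_le_mul_card_image_of_maps_to (f := fun g => g.2.2) (fun _ _ => mem_univ _) D2 ?_
    intro z _
    rcases ((Hi i).filter fun g => g.2.2 = z).eq_empty_or_nonempty with h3 | ⟨h, hh⟩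
    · rw [h3]; simp
    · rw [mem_filter] at hh
      have hh1 := mem_filter.1 hh.1
      refine (card_le_card fun g hg => ?_).trans (hz h hh1.1)
      rw [mem_filter] at hg
      have hg1 := mem_filter.1 hg.1
      exact mem_L.2 ⟨hg1.1, hg.2.trans hh.2.symm, hc' _ _ (hh1.2.trans hg1.2.symm)⟩
  have h3 : ∀ i, ((Hi i).card : ℝ) ≤ Real.sqrt (D1 * D2 * Fintype.card Z) *
      (Real.sqrt (xi i).card * Real.sqrt (yi i).card) := by
    intro i
    have h4 : ((Hi i).card : ℝ) ^ 2 ≤ (Real.sqrt (D1 * D2 * Fintype.card Z) *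
        (Real.sqrt (xi i).card * Real.sqrt (yi i).card)) ^ 2 := by
      have h5 : ((Hi i).card : ℝ) ≤ D1 * ((xi i).card * (yi i).card) := by exact_mod_cast h1 i
      have h6 : ((Hi i).card : ℝ) ≤ D2 * Fintype.card Z := by exact_mod_cast h2 i
      rw [mul_pow, mul_pow, Real.sq_sqrt (by positivity), Real.sq_sqrt (Nat.cast_nonneg _),
        Real.sq_sqrt (Nat.cast_nonneg _), sq]
      calc ((Hi i).card : ℝ) * (Hi i).card ≤ (D1 * ((xi i).card * (yi i).card)) * (D2 * Fintype.card Z) :=
            mul_le_mul h5 h6 (Nat.cast_nonneg _) (by positivity)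
        _ = _ := by ring
    exact le_of_sq_le_sq h4 (by positivity)
  have h4 : (H.card : ℝ) ≤ Real.sqrt (D1 * D2 * Fintype.card Z) *
      ∑ i ∈ I, Real.sqrt (xi i).card * Real.sqrt (yi i).card := by
    rw [hsumH, mul_sum]
    push_cast
    exact sum_le_sum fun i _ => h3 i
  have h5 : (∑ i ∈ I, Real.sqrt (xi i).card * Real.sqrt (yi i).card) ^ 2 ≤
      (Fintype.card X : ℝ) * Fintype.card Y := by
    refine (sum_mul_sq_le_sq_mul_sq _ _ _).trans ?_
    have e1 : ∑ i ∈ I, Real.sqrt ((xi i).card : ℝ) ^ 2 ≤ Fintype.card X := by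
      have : ∑ i ∈ I, Real.sqrt ((xi i).card : ℝ) ^ 2 = ((∑ i ∈ I, (xi i).card : ℕ) : ℝ) := by
        push_cast
        exact sum_congr rfl fun i _ => Real.sq_sqrt (Nat.cast_nonneg _)
      rw [this]
      exact_mod_cast hsumx
    have e2 : ∑ i ∈ I, Real.sqrt ((yi i).card : ℝ) ^ 2 ≤ Fintype.card Y := by
      have : ∑ i ∈ I, Real.sqrt ((yi i).card : ℝ) ^ 2 = ((∑ i ∈ I, (yi i).card : ℕ) : ℝ) := by
        push_cast
        exact sum_congr rfl fun i _ => Real.sq_sqrt (Nat.cast_nonneg _)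
      rw [this]
      exact_mod_cast hsumy
    exact mul_le_mul e1 e2 (sum_nonneg fun _ _ => sq_nonneg _) (Nat.cast_nonneg _)
  have h6 : (H.card : ℝ) ^ 2 ≤ D1 * D2 * (Fintype.card X * Fintype.card Y * Fintype.card Z) := by
    calc (H.card : ℝ) ^ 2 ≤ (Real.sqrt (D1 * D2 * Fintype.card Z) *
          ∑ i ∈ I, Real.sqrt (xi i).card * Real.sqrt (yi i).card) ^ 2 :=
          pow_le_pow_left₀ (Nat.cast_nonneg _) h4 2
      _ = D1 * D2 * Fintype.card Z *
          (∑ i ∈ I, Real.sqrt (xi i).card * Real.sqrt (yi i).card) ^ 2 := by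
          rw [mul_pow, Real.sq_sqrt (by positivity)]
      _ ≤ D1 * D2 * Fintype.card Z * (Fintype.card X * Fintype.card Y) :=
          mul_le_mul_of_nonneg_left h5 (by positivity)
      _ = _ := by ring
  exact_mod_cast h6

end count

section iter

/-- `Good` without the idempotence of `d` -/
structure Pre {ι D : Type*} [DecidableEq ι] (i0 : ι) (p : D → D → D → D) (s : (ι → D) → D) :
    Prop where
  p1 : ∀ x y, p x y y = x
  s0 : ∀ x y, s (Function.update (fun _ => y) i0 x) = p y y x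
  s1 : ∀ i, i ≠ i0 → ∀ x y, s (Function.update (fun _ => y) i x) = y

/-- the iterated ternary operation -/
def pp {D : Type*} (p : D → D → D → D) : ℕ → D → D → D → D
  | 0 => p
  | n + 1 => fun x y z => p x y (pp p n y y z)

/-- the iterated operation `s` -/
def ss {ι D : Type*} [DecidableEq ι] (i0 : ι) (s : (ι → D) → D) : ℕ → (ι → D) → D
  | 0 => s
  | n + 1 => fun x => s (Function.update x i0 (ss i0 s n x))

variable {ι D : Type*} [DecidableEq ι] {i0 : ι} {p : D → D → D → D} {s : (ι → D) → D}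

lemma pp_eq (n : ℕ) (x z : D) : pp p n x x z = (p x x)^[n + 1] z := by
  induction n with
  | zero => rfl
  | succ n ih =>
    rw [Function.iterate_succ_apply', ← ih]
    rfl

lemma pre_iter (h : Pre i0 p s) (n : ℕ) : Pre i0 (pp p n) (ss i0 s n) := by
  induction n with
  | zero => exact h
  | succ n ih =>
    refine ⟨?_, ?_, ?_⟩
    · intro x y
      change p x y (pp p n y y y) = x
      rw [ih.p1]
      exact h.p1 x y
    · intro x y
      change s (Function.update (Function.update (fun _ => y) i0 x) i0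
        (ss i0 s n (Function.update (fun _ => y) i0 x))) = p y y (pp p n y y x)
      rw [Function.update_idem, ih.s0]
      exact h.s0 _ _
    · intro i hi x y
      change s (Function.update (Function.update (fun _ => y) i x) i0
        (ss i0 s n (Function.update (fun _ => y) i x))) = y
      rw [ih.s1 i hi]
      have e : Function.update (Function.update (fun _ : ι => y) i x) i0 y =
          Function.update (fun _ => y) i x := by
        rw [Function.update_eq_self_iff, Function.update_of_ne (Ne.symm hi)]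
      rw [e]
      exact h.s1 i hi x y

lemma good_iter (h : Pre i0 p s) (n : ℕ)
    (hn : ∀ x : D, (p x x)^[(n + 1) + (n + 1)] = (p x x)^[n + 1]) :
    Good i0 (pp p n) (ss i0 s n) := by
  have h1 := pre_iter h n
  refine ⟨h1.p1, h1.s0, h1.s1, ?_⟩
  intro x y
  rw [pp_eq, pp_eq, ← Function.iterate_add_apply, hn]

/-- idempotent powers -/
lemma exists_idem (D : Type*) [Finite D] {κ : Type*} [Finite κ] (f : κ → D → D) :
    ∃ M, 0 < M ∧ ∀ i, (f i)^[M + M] = (f i)^[M] := by
  obtain ⟨m, n, hmn, he⟩ := Finite.exists_ne_map_eq_of_infinite (fun n : ℕ => fun i => (f i)^[n])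
  wlog hlt : m < n generalizing m n with H
  · exact H n m hmn.symm he.symm (by omega)
  obtain ⟨l, rfl⟩ := Nat.exists_eq_add_of_lt hlt
  have h1 : ∀ i t, m ≤ t → (f i)^[t + (l + 1)] = (f i)^[t] := by
    intro i t ht
    obtain ⟨u, rfl⟩ := Nat.exists_eq_add_of_le ht
    have h2 : (f i)^[m] = (f i)^[m + l + 1] := congrFun he i
    rw [show m + u + (l + 1) = u + (m + l + 1) by ring, Function.iterate_add, ← h2,
      ← Function.iterate_add, add_comm u m]
  have h2 : ∀ i t j, m ≤ t → (f i)^[t + j * (l + 1)] = (f i)^[t] := by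
    intro i t j ht
    induction j with
    | zero => simp
    | succ j ih => rw [show t + (j + 1) * (l + 1) = (t + j * (l + 1)) + (l + 1) by ring,
        h1 i _ (by omega), ih]
  refine ⟨(m + 1) * (l + 1), by positivity, fun i => h2 i _ _ ?_⟩
  nlinarith

lemma idem_mul {D : Type*} {f : D → D} {M : ℕ} (h : f^[M + M] = f^[M]) (k : ℕ) :
    f^[(k + 1) * M] = f^[M] := by
  induction k with
  | zero => simp
  | succ k ih => rw [show (k + 1 + 1) * M = (k + 1) * M + M by ring, Function.iterate_add, ih,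
      ← Function.iterate_add, h]

lemma idem_mul' {D : Type*} {f : D → D} {M : ℕ} (h : f^[M + M] = f^[M]) {k : ℕ} (hk : 0 < k) :
    f^[k * M + k * M] = f^[k * M] := by
  obtain ⟨k, rfl⟩ := Nat.exists_eq_succ_of_ne_zero hk.ne'
  rw [Function.iterate_add, idem_mul h, ← Function.iterate_add, h]

end iter

section sys
variable {X Y Z : Type*} [DecidableEq X] [DecidableEq Y] [DecidableEq Z]
variable {ι : Type*} [DecidableEq ι] {i0 : ι} {H : Finset (X × Y × Z)}
    {pX : X → X → X → X} {pY : Y → Y → Y → Y} {pZ : Z → Z → Z → Z}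
    {sX : (ι → X) → X} {sY : (ι → Y) → Y} {sZ : (ι → Z) → Z}

lemma pp_cl (pcl : ∀ a ∈ H, ∀ b ∈ H, ∀ c ∈ H,
      (pX a.1 b.1 c.1, pY a.2.1 b.2.1 c.2.1, pZ a.2.2 b.2.2 c.2.2) ∈ H) (n : ℕ) :
    ∀ a ∈ H, ∀ b ∈ H, ∀ c ∈ H, (pp pX n a.1 b.1 c.1, pp pY n a.2.1 b.2.1 c.2.1,
      pp pZ n a.2.2 b.2.2 c.2.2) ∈ H := by
  induction n with
  | zero => exact pcl
  | succ n ih =>
    intro a ha b hb c hc
    exact pcl a ha b hb _ (ih b hb b hb c hc)

lemma ss_cl (scl : ∀ a : ι → X × Y × Z, (∀ i, a i ∈ H) →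
      (sX fun i => (a i).1, sY fun i => (a i).2.1, sZ fun i => (a i).2.2) ∈ H) (n : ℕ) :
    ∀ a : ι → X × Y × Z, (∀ i, a i ∈ H) →
      (ss i0 sX n fun i => (a i).1, ss i0 sY n fun i => (a i).2.1,
        ss i0 sZ n fun i => (a i).2.2) ∈ H := by
  induction n with
  | zero => exact scl
  | succ n ih =>
    intro a ha
    have h1 := scl (Function.update a i0 (ss i0 sX n fun i => (a i).1, ss i0 sY n fun i => (a i).2.1,
        ss i0 sZ n fun i => (a i).2.2)) ?_
    · have e1 : (fun i => (Function.update a i0 (ss i0 sX n fun i => (a i).1,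
          ss i0 sY n fun i => (a i).2.1, ss i0 sZ n fun i => (a i).2.2) i).1) =
          Function.update (fun i => (a i).1) i0 (ss i0 sX n fun i => (a i).1) := by
        ext i
        by_cases h : i = i0
        · rw [h, Function.update_self, Function.update_self]
        · rw [Function.update_of_ne h, Function.update_of_ne h]
      have e2 : (fun i => (Function.update a i0 (ss i0 sX n fun i => (a i).1,
          ss i0 sY n fun i => (a i).2.1, ss i0 sZ n fun i => (a i).2.2) i).2.1) =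
          Function.update (fun i => (a i).2.1) i0 (ss i0 sY n fun i => (a i).2.1) := by
        ext i
        by_cases h : i = i0
        · rw [h, Function.update_self, Function.update_self]
        · rw [Function.update_of_ne h, Function.update_of_ne h]
      have e3 : (fun i => (Function.update a i0 (ss i0 sX n fun i => (a i).1,
          ss i0 sY n fun i => (a i).2.1, ss i0 sZ n fun i => (a i).2.2) i).2.2) =
          Function.update (fun i => (a i).2.2) i0 (ss i0 sZ n fun i => (a i).2.2) := by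
        ext i
        by_cases h : i = i0
        · rw [h, Function.update_self, Function.update_self]
        · rw [Function.update_of_ne h, Function.update_of_ne h]
      rw [e1, e2, e3] at h1
      exact h1
    · intro i
      by_cases h : i = i0
      · rw [h, Function.update_self]
        exact ih a ha
      · rw [Function.update_of_ne h]
        exact ha i

/-- a system with operations gives one with idempotent `d` -/
lemma exists_sys [Finite X] [Finite Y] [Finite Z] (gX : Pre i0 pX sX) (gY : Pre i0 pY sY)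
    (gZ : Pre i0 pZ sZ)
    (pcl : ∀ a ∈ H, ∀ b ∈ H, ∀ c ∈ H, (pX a.1 b.1 c.1, pY a.2.1 b.2.1 c.2.1, pZ a.2.2 b.2.2 c.2.2) ∈ H)
    (scl : ∀ a : ι → X × Y × Z, (∀ i, a i ∈ H) →
      (sX fun i => (a i).1, sY fun i => (a i).2.1, sZ fun i => (a i).2.2) ∈ H) :
    ∃ n, Sys i0 H (pp pX n) (pp pY n) (pp pZ n) (ss i0 sX n) (ss i0 sY n) (ss i0 sZ n) := by
  obtain ⟨M1, hM1, h1⟩ := exists_idem X (fun x => pX x x)
  obtain ⟨M2, hM2, h2⟩ := exists_idem Y (fun x => pY x x)
  obtain ⟨M3, hM3, h3⟩ := exists_idem Z (fun x => pZ x x)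
  have hM : 0 < M1 * M2 * M3 := by positivity
  obtain ⟨n, hn⟩ := Nat.exists_eq_succ_of_ne_zero hM.ne'
  have hn' : n + 1 = M1 * M2 * M3 := hn.symm
  refine ⟨n, good_iter gX n ?_, good_iter gY n ?_, good_iter gZ n ?_, ?_, ?_⟩
  · intro x
    rw [hn', show M1 * M2 * M3 = (M2 * M3) * M1 by ring]
    exact idem_mul' (h1 x) (by positivity)
  · intro x
    rw [hn', show M1 * M2 * M3 = (M1 * M3) * M2 by ring]
    exact idem_mul' (h2 x) (by positivity)
  · intro x
    rw [hn']
    exact idem_mul' (h3 x) (by positivity)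
  · exact pp_cl pcl n
  · exact ss_cl scl n

/-- two different triples have at most one vertex in common -/
def Lin (H : Finset (X × Y × Z)) : Prop :=
  ∀ e ∈ H, ∀ e' ∈ H, (e.1 = e'.1 ∧ e.2.1 = e'.2.1) ∨ (e.1 = e'.1 ∧ e.2.2 = e'.2.2) ∨
    (e.2.1 = e'.2.1 ∧ e.2.2 = e'.2.2) → e = e'

/-- `H` contains a Latin square with the rows `A`, the columns `B` and the symbols `C` -/
def Latin (H : Finset (X × Y × Z)) (A : Finset X) (B : Finset Y) (C : Finset Z) : Prop :=
  A.card = B.card ∧ B.card = C.card ∧ (∀ a ∈ A, ∀ b ∈ B, ∃ c ∈ C, (a, b, c) ∈ H) ∧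
    (∀ a ∈ A, ∀ c ∈ C, ∃ b ∈ B, (a, b, c) ∈ H) ∧ ∀ b ∈ B, ∀ c ∈ C, ∃ a ∈ A, (a, b, c) ∈ H

lemma lin_eq (hl : Lin H) {a b : X × Y × Z} (h : ReflTransGen (Rz H) a b) : a = b := by
  induction h with
  | refl => rfl
  | @tail b c _ hbc ih =>
    rw [ih]
    refine hl b hbc.1.1 c hbc.1.2.1 ?_
    rcases hbc.1.2.2 with h1 | h1
    · exact Or.inr (Or.inl ⟨h1, hbc.2⟩)
    · exact Or.inr (Or.inr ⟨h1, hbc.2⟩)

/-- in a linear system the link component is a Latin square -/
lemma latin [Fintype ι] {h0 : X × Y × Z} (hS : Sys i0 H pX pY pZ sX sY sZ) (hh0 : h0 ∈ H)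
    (hl : Lin H) : ∃ A B C, Latin H A B C ∧ (L H h0).card = A.card := by
  classical
  set A := (L H h0).image fun g => g.1 with hA
  set B := (L H h0).image fun g => g.2.1 with hB
  set C := (K0 H h0).image fun g => g.2.2 with hC
  have hAc : A.card = (L H h0).card := by
    refine card_image_of_injOn fun a ha b hb hab => ?_
    have ha' := mem_L.1 ha
    have hb' := mem_L.1 hb
    exact hl a ha'.1 b hb'.1 (Or.inr (Or.inl ⟨hab, ha'.2.1.trans hb'.2.1.symm⟩))
  have hBc : B.card = (L H h0).card := by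
    refine card_image_of_injOn fun a ha b hb hab => ?_
    have ha' := mem_L.1 ha
    have hb' := mem_L.1 hb
    exact hl a ha'.1 b hb'.1 (Or.inr (Or.inr ⟨hab, ha'.2.1.trans hb'.2.1.symm⟩))
  have h1 : ∀ a ∈ A, ∀ b ∈ B, ∃ c ∈ C, (a, b, c) ∈ H := by
    intro a ha b hb
    obtain ⟨u, hu, rfl⟩ := mem_image.1 ha
    obtain ⟨v, hv, rfl⟩ := mem_image.1 hb
    obtain ⟨g, hg, hgx, w, hw, hvw, hgw⟩ := cell hS hh0 hu hv
    rw [← lin_eq hl hvw] at hgw
    refine ⟨g.2.2, mem_image_of_mem _ hg, ?_⟩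
    rw [← hgx, ← hgw]
    exact (mem_K0.1 hg).1
  have h2 : ∀ a ∈ A, ∀ c ∈ C, ∃ b ∈ B, (a, b, c) ∈ H := by
    intro a ha c hc
    obtain ⟨u, hu, rfl⟩ := mem_image.1 ha
    obtain ⟨g, hg, rfl⟩ := mem_image.1 hc
    obtain ⟨g', hg', hgz, v, hv, huv, hgv⟩ := symb_x hS hh0 hg hu
    rw [← lin_eq hl huv] at hgv
    have hg'' := mem_K0.1 hg'
    obtain ⟨b, hb, hby⟩ := hg''.2.2.2
    refine ⟨g'.2.1, mem_image.2 ⟨b, hb, hby⟩, ?_⟩
    rw [← hgv, ← hgz]
    exact hg''.1
  have h3 : ∀ b ∈ B, ∀ c ∈ C, ∃ a ∈ A, (a, b, c) ∈ H := by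
    intro b hb c hc
    obtain ⟨u, hu, rfl⟩ := mem_image.1 hb
    obtain ⟨g, hg, rfl⟩ := mem_image.1 hc
    obtain ⟨g', hg', hgz, v, hv, huv, hgv⟩ := symb_y hS hh0 hg hu
    rw [← lin_eq hl huv] at hgv
    have hg'' := mem_K0.1 hg'
    obtain ⟨a, ha, hax⟩ := hg''.2.2.1
    refine ⟨g'.1, mem_image.2 ⟨a, ha, hax⟩, ?_⟩
    rw [← hgv, ← hgz]
    exact hg''.1
  have hx0 : h0.1 ∈ A := mem_image_of_mem _ (self_mem_L hh0)
  have hBC : B.card = C.card := by
    refine le_antisymm ?_ ?_
    · refine card_le_card_of_forall_subsingleton (fun b c => (h0.1, b, c) ∈ H) (h1 _ hx0) ?_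
      intro c _ b hb b' hb'
      have := hl _ hb.2 _ hb'.2 (Or.inr (Or.inl ⟨rfl, rfl⟩))
      exact congrArg (fun g : X × Y × Z => g.2.1) this
    · refine card_le_card_of_forall_subsingleton (fun c b => (h0.1, b, c) ∈ H) (h2 _ hx0) ?_
      intro b _ c hc c' hc'
      have := hl _ hc.2 _ hc'.2 (Or.inl ⟨rfl, rfl⟩)
      exact congrArg (fun g : X × Y × Z => g.2.2) this
  exact ⟨A, B, C, ⟨hAc.trans hBc.symm, hBC, h1, h2, h3⟩, hAc.symm⟩

end sys

end Q112.ED
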