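import Pool.Agent.Q112.ED.Count

/-!
Tripartite triple systems closed under edge operations: from edge operations to the terms, and the main
theorems.
-/

set_option autoImplicit false
set_option linter.unusedSectionVars false

open Finset Relation

namespace Q112.ED

/-- edge operations -/
def IsEdge {D : Type*} {r : ℕ} (t : (Fin (r + 3) → D) → D) : Prop :=
  (∀ x y, t (fun i => if i.val = 0 ∨ i.val = 1 then y else x) = x) ∧
  (∀ x y, t (fun i => if i.val = 0 ∨ i.val = 2 then y else x) = x) ∧
  ∀ j : Fin (r + 3), 3 ≤ j.val → ∀ x y, t (fun i => if i = j then y else x) = x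

/-- the ternary term -/
def pOf {D : Type*} {r : ℕ} (t : (Fin (r + 3) → D) → D) (x y z : D) : D :=
  t fun i => if i.val = 0 then y else if i.val = 1 then z else x

/-- the other term -/
def sOf {D : Type*} {r : ℕ} (t : (Fin (r + 3) → D) → D) (x : Fin (r + 3) → D) : D :=
  t fun i => if i.val = 0 then x ⟨2, by omega⟩ else x i

lemma pre_of_edge {D : Type*} {r : ℕ} {t : (Fin (r + 3) → D) → D} (h : IsEdge t) :
    Pre (⟨1, by omega⟩ : Fin (r + 3)) (pOf t) (sOf t) := by
  refine ⟨?_, ?_, ?_⟩
  · intro x y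
    refine Eq.trans ?_ (h.1 x y)
    unfold pOf
    congr 1
    ext1 i
    by_cases h0 : i.val = 0
    · rw [if_pos h0, if_pos (Or.inl h0)]
    · by_cases h1 : i.val = 1
      · rw [if_neg h0, if_pos h1, if_pos (Or.inr h1)]
      · rw [if_neg h0, if_neg h1, if_neg (by tauto)]
  · intro x y
    unfold sOf pOf
    congr 1
    ext1 i
    by_cases h0 : i.val = 0
    · rw [if_pos h0, if_pos h0, Function.update_of_ne]
      intro h1
      have := congrArg Fin.val h1
      simp at this
    · rw [if_neg h0, if_neg h0]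
      by_cases h1 : i.val = 1
      · rw [if_pos h1]
        have : i = ⟨1, by omega⟩ := Fin.ext h1
        rw [this, Function.update_self]
      · rw [if_neg h1, Function.update_of_ne]
        intro h2
        exact h1 (congrArg Fin.val h2)
  · intro i hi x y
    have hi1 : i.val ≠ 1 := fun h1 => hi (Fin.ext h1)
    unfold sOf
    by_cases h2 : i.val = 2
    · have hi2 : i = (⟨2, Nat.lt_add_left r (by norm_num)⟩ : Fin (r + 3)) := Fin.ext h2
      clear h2
      subst hi2
      have e : (fun j : Fin (r + 3) => if j.val = 0 then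
          Function.update (fun _ => y) (⟨2, Nat.lt_add_left r (by norm_num)⟩ : Fin (r + 3)) x ⟨2, by omega⟩
          else Function.update (fun _ => y) (⟨2, Nat.lt_add_left r (by norm_num)⟩ : Fin (r + 3)) x j) =
          fun j => if j.val = 0 ∨ j.val = 2 then x else y := by
        ext1 j
        rw [Function.update_self]
        by_cases h0 : j.val = 0
        · rw [if_pos h0, if_pos (Or.inl h0)]
        · rw [if_neg h0]
          by_cases h3 : j.val = 2
          · have : j = ⟨2, by omega⟩ := Fin.ext h3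
            rw [if_pos (Or.inr h3), this, Function.update_self]
          · rw [if_neg (by tauto), Function.update_of_ne]
            intro h4
            exact h3 (congrArg Fin.val h4)
      rw [e]
      exact h.2.1 y x
    · have e0 : Function.update (fun _ : Fin (r + 3) => y) i x ⟨2, by omega⟩ = y := by
        rw [Function.update_of_ne]
        intro h4
        exact h2 (congrArg Fin.val h4).symm
      rw [e0]
      by_cases h0 : i.val = 0
      · have e : (fun j : Fin (r + 3) => if j.val = 0 then y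
            else Function.update (fun _ => y) i x j) = fun j => if j.val = 0 ∨ j.val = 1 then y else y := by
          ext1 j
          rw [ite_self]
          by_cases h3 : j.val = 0
          · rw [if_pos h3]
          · rw [if_neg h3, Function.update_of_ne]
            intro h4
            rw [h4] at h3
            exact h3 h0
        rw [e]
        exact h.1 y y
      · have e : (fun j : Fin (r + 3) => if j.val = 0 then y
            else Function.update (fun _ => y) i x j) = fun j => if j = i then x else y := by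
          ext1 j
          by_cases h3 : j.val = 0
          · rw [if_pos h3, if_neg]
            intro h4
            rw [h4] at h3
            exact h0 h3
          · rw [if_neg h3]
            by_cases h4 : j = i
            · rw [if_pos h4, h4, Function.update_self]
            · rw [if_neg h4, Function.update_of_ne h4]
        rw [e]
        exact h.2.2 i (by omega) y x

section
variable {X Y Z : Type*} [DecidableEq X] [DecidableEq Y] [DecidableEq Z] {H : Finset (X × Y × Z)}

/-- closed under componentwise operations -/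
def Cl {n : ℕ} (tX : (Fin n → X) → X) (tY : (Fin n → Y) → Y) (tZ : (Fin n → Z) → Z)
    (H : Finset (X × Y × Z)) : Prop :=
  ∀ a : Fin n → X × Y × Z, (∀ l, a l ∈ H) →
    (tX fun l => (a l).1, tY fun l => (a l).2.1, tZ fun l => (a l).2.2) ∈ H

lemma sys_of_edge [Finite X] [Finite Y] [Finite Z] {r : ℕ} {tX : (Fin (r + 3) → X) → X}
    {tY : (Fin (r + 3) → Y) → Y} {tZ : (Fin (r + 3) → Z) → Z} (hX : IsEdge tX) (hY : IsEdge tY)
    (hZ : IsEdge tZ) (hcl : Cl tX tY tZ H) :
    ∃ pX pY pZ sX sY sZ, Sys (⟨1, by omega⟩ : Fin (r + 3)) H pX pY pZ sX sY sZ := by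
  have pcl : ∀ a ∈ H, ∀ b ∈ H, ∀ c ∈ H, (pOf tX a.1 b.1 c.1, pOf tY a.2.1 b.2.1 c.2.1,
      pOf tZ a.2.2 b.2.2 c.2.2) ∈ H := by
    intro a ha b hb c hc
    have h1 := hcl (fun i => if i.val = 0 then b else if i.val = 1 then c else a) (by
      intro l
      split_ifs
      · exact hb
      · exact hc
      · exact ha)
    have e1 : (fun l : Fin (r + 3) => (if l.val = 0 then b else if l.val = 1 then c else a).1) =
        fun l => if l.val = 0 then b.1 else if l.val = 1 then c.1 else a.1 := by
      ext l; split_ifs <;> rfl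
    have e2 : (fun l : Fin (r + 3) => (if l.val = 0 then b else if l.val = 1 then c else a).2.1) =
        fun l => if l.val = 0 then b.2.1 else if l.val = 1 then c.2.1 else a.2.1 := by
      ext l; split_ifs <;> rfl
    have e3 : (fun l : Fin (r + 3) => (if l.val = 0 then b else if l.val = 1 then c else a).2.2) =
        fun l => if l.val = 0 then b.2.2 else if l.val = 1 then c.2.2 else a.2.2 := by
      ext l; split_ifs <;> rfl
    rw [e1, e2, e3] at h1
    exact h1
  have scl : ∀ a : Fin (r + 3) → X × Y × Z, (∀ i, a i ∈ H) →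
      (sOf tX fun i => (a i).1, sOf tY fun i => (a i).2.1, sOf tZ fun i => (a i).2.2) ∈ H := by
    intro a ha
    have h1 := hcl (fun i => if i.val = 0 then a ⟨2, by omega⟩ else a i) (by
      intro l
      split_ifs
      · exact ha _
      · exact ha _)
    have e1 : (fun l : Fin (r + 3) => (if l.val = 0 then a ⟨2, by omega⟩ else a l).1) =
        fun l => if l.val = 0 then (a ⟨2, by omega⟩).1 else (a l).1 := by
      ext l; split_ifs <;> rfl
    have e2 : (fun l : Fin (r + 3) => (if l.val = 0 then a ⟨2, by omega⟩ else a l).2.1) =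
        fun l => if l.val = 0 then (a ⟨2, by omega⟩).2.1 else (a l).2.1 := by
      ext l; split_ifs <;> rfl
    have e3 : (fun l : Fin (r + 3) => (if l.val = 0 then a ⟨2, by omega⟩ else a l).2.2) =
        fun l => if l.val = 0 then (a ⟨2, by omega⟩).2.2 else (a l).2.2 := by
      ext l; split_ifs <;> rfl
    rw [e1, e2, e3] at h1
    exact h1
  obtain ⟨n, hn⟩ := exists_sys (H := H) (pre_of_edge hX) (pre_of_edge hY) (pre_of_edge hZ) pcl scl
  exact ⟨_, _, _, _, _, _, hn⟩

/-- sparse systems -/
theorem sparse [Fintype X] [Fintype Y] [Fintype Z] {r : ℕ} {tX : (Fin (r + 3) → X) → X}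
    {tY : (Fin (r + 3) → Y) → Y} {tZ : (Fin (r + 3) → Z) → Z} (hX : IsEdge tX) (hY : IsEdge tY)
    (hZ : IsEdge tZ) (hcl : Cl tX tY tZ H) {s : ℕ} (hs : 0 < s)
    (hsp : ∀ T : Finset (X × Y × Z), T ⊆ H → T.card = s →
      s + 3 < (T.image fun g => g.1).card + (T.image fun g => g.2.1).card +
        (T.image fun g => g.2.2).card) :
    H.card ^ 2 ≤ (s - 1) ^ 2 * (s / 2) * (Fintype.card X * Fintype.card Y * Fintype.card Z) := by
  classical
  obtain ⟨pX, pY, pZ, sX, sY, sZ, hS⟩ := sys_of_edge hX hY hZ hcl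
  have h := count H (s - 1) ((s - 1) * (s / 2)) ?_ (fun h hh => link_card hS hh s hs hsp)
  · rw [show (s - 1) ^ 2 * (s / 2) = (s - 1) * ((s - 1) * (s / 2)) by ring]
    exact h
  · intro x y
    by_contra hcon
    push Not at hcon
    obtain ⟨T, hT, hTc⟩ := exists_subset_card_eq
      (show s ≤ (H.filter fun g => g.1 = x ∧ g.2.1 = y).card by omega)
    have h1 := hsp T (hT.trans (filter_subset _ _)) hTc
    have h2 : (T.image fun g => g.1).card ≤ 1 := by
      rw [card_le_one]
      intro a ha b hb
      obtain ⟨g, hg, rfl⟩ := mem_image.1 ha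
      obtain ⟨g', hg', rfl⟩ := mem_image.1 hb
      rw [(mem_filter.1 (hT hg)).2.1, (mem_filter.1 (hT hg')).2.1]
    have h3 : (T.image fun g => g.2.1).card ≤ 1 := by
      rw [card_le_one]
      intro a ha b hb
      obtain ⟨g, hg, rfl⟩ := mem_image.1 ha
      obtain ⟨g', hg', rfl⟩ := mem_image.1 hb
      rw [(mem_filter.1 (hT hg)).2.2, (mem_filter.1 (hT hg')).2.2]
    have h4 : (T.image fun g => g.2.2).card ≤ T.card := card_image_le
    omega

/-- linear systems -/
theorem linear [Fintype X] [Fintype Y] [Fintype Z] {r : ℕ} {tX : (Fin (r + 3) → X) → X}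
    {tY : (Fin (r + 3) → Y) → Y} {tZ : (Fin (r + 3) → Z) → Z} (hX : IsEdge tX) (hY : IsEdge tY)
    (hZ : IsEdge tZ) (hcl : Cl tX tY tZ H) (hl : Lin H) {N : ℕ}
    (hN : ∀ A B C, Latin H A B C → A.card ≤ N) :
    H.card ^ 2 ≤ N * (Fintype.card X * Fintype.card Y * Fintype.card Z) := by
  classical
  obtain ⟨pX, pY, pZ, sX, sY, sZ, hS⟩ := sys_of_edge hX hY hZ hcl
  have h := count H 1 N ?_ ?_
  · rwa [one_mul] at h
  · intro x y
    rw [card_le_one]
    intro a ha b hb
    have ha' := mem_filter.1 ha
    have hb' := mem_filter.1 hb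
    exact hl a ha'.1 b hb'.1 (Or.inl ⟨ha'.2.1.trans hb'.2.1.symm, ha'.2.2.trans hb'.2.2.symm⟩)
  · intro h hh
    obtain ⟨A, B, C, hABC, hc⟩ := latin hS hh hl
    rw [hc]
    exact hN A B C hABC

end

section examples

lemma edge_of_maltsev {D : Type*} {p : D → D → D → D} (h : ∀ x y, p x y y = x ∧ p y y x = x) :
    IsEdge (r := 0) fun a : Fin 3 → D => p (a 1) (a 0) (a 2) := by
  refine ⟨fun x y => ?_, fun x y => ?_, fun j hj => ?_⟩
  · exact (h x y).2
  · exact (h x y).1
  · exact absurd j.2 (by omega)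

lemma edge_of_nu {D : Type*} {r : ℕ} {t : (Fin (r + 2) → D) → D}
    (h : ∀ (l : Fin (r + 2)) (x y : D), t (Function.update (fun _ => x) l y) = x) :
    IsEdge (r := r) fun a : Fin (r + 3) → D => t fun l => a l.succ := by
  have key : ∀ (l : Fin (r + 2)) (x y : D) (f : Fin (r + 2) → D), (∀ i, f i = if i = l then y else x) →
      t f = x := by
    intro l x y f hf
    have e : f = Function.update (fun _ => x) l y := by
      ext1 i
      rw [hf]
      by_cases h1 : i = l
      · rw [if_pos h1, h1, Function.update_self]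
      · rw [if_neg h1, Function.update_of_ne h1]
    rw [e]
    exact h l x y
  refine ⟨fun x y => ?_, fun x y => ?_, fun j hj x y => ?_⟩
  · refine key ⟨0, by omega⟩ x y _ fun i => ?_
    have h1 : (i.succ.val = 0 ∨ i.succ.val = 1) ↔ i = ⟨0, by omega⟩ := by
      rw [Fin.val_succ]
      constructor
      · intro h2; exact Fin.ext (by simp only; omega)
      · intro h2; rw [h2]; right; rfl
    exact if_congr h1 rfl rfl
  · refine key ⟨1, by omega⟩ x y _ fun i => ?_
    have h1 : (i.succ.val = 0 ∨ i.succ.val = 2) ↔ i = ⟨1, by omega⟩ := by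
      rw [Fin.val_succ]
      constructor
      · intro h2; exact Fin.ext (by simp only; omega)
      · intro h2; rw [h2]; right; rfl
    exact if_congr h1 rfl rfl
  · refine key ⟨j.val - 1, by omega⟩ x y _ fun i => ?_
    have h1 : i.succ = j ↔ i = ⟨j.val - 1, by omega⟩ := by
      constructor
      · intro h2
        have := congrArg Fin.val h2
        rw [Fin.val_succ] at this
        exact Fin.ext (by simp only; omega)
      · intro h2
        refine Fin.ext ?_
        rw [Fin.val_succ, h2]
        simp only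
        omega
    exact if_congr h1 rfl rfl

/-- the operation of the example -/
def exOp {m N r : ℕ} (t : (Fin (r + 3) → Fin m) → Fin m) (a : Fin (r + 3) → Fin m × Fin m × ZMod N) :
    Fin m × Fin m × ZMod N :=
  (t fun i => (a i).1, t fun i => (a i).2.1,
    (a ⟨1, by omega⟩).2.2 - (a ⟨0, by omega⟩).2.2 + (a ⟨2, by omega⟩).2.2)

lemma exOp_edge {m N r : ℕ} {t : (Fin (r + 3) → Fin m) → Fin m} (h : IsEdge t) :
    IsEdge (exOp (N := N) t) := by
  refine ⟨fun x y => ?_, fun x y => ?_, fun j hj x y => ?_⟩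
  · have e1 : (fun i : Fin (r + 3) => (if i.val = 0 ∨ i.val = 1 then y else x).1) =
        fun i => if i.val = 0 ∨ i.val = 1 then y.1 else x.1 := by ext i; split_ifs <;> rfl
    have e2 : (fun i : Fin (r + 3) => (if i.val = 0 ∨ i.val = 1 then y else x).2.1) =
        fun i => if i.val = 0 ∨ i.val = 1 then y.2.1 else x.2.1 := by ext i; split_ifs <;> rfl
    unfold exOp
    rw [e1, e2, h.1, h.1]
    refine Prod.ext rfl (Prod.ext rfl ?_)
    simp
  · have e1 : (fun i : Fin (r + 3) => (if i.val = 0 ∨ i.val = 2 then y else x).1) =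
        fun i => if i.val = 0 ∨ i.val = 2 then y.1 else x.1 := by ext i; split_ifs <;> rfl
    have e2 : (fun i : Fin (r + 3) => (if i.val = 0 ∨ i.val = 2 then y else x).2.1) =
        fun i => if i.val = 0 ∨ i.val = 2 then y.2.1 else x.2.1 := by ext i; split_ifs <;> rfl
    unfold exOp
    rw [e1, e2, h.2.1, h.2.1]
    refine Prod.ext rfl (Prod.ext rfl ?_)
    simp
  · have e1 : (fun i : Fin (r + 3) => (if i = j then y else x).1) =
        fun i => if i = j then y.1 else x.1 := by ext i; split_ifs <;> rfl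
    have e2 : (fun i : Fin (r + 3) => (if i = j then y else x).2.1) =
        fun i => if i = j then y.2.1 else x.2.1 := by ext i; split_ifs <;> rfl
    unfold exOp
    rw [e1, e2, h.2.2 j hj, h.2.2 j hj]
    refine Prod.ext rfl (Prod.ext rfl ?_)
    have h0 : ¬ ((⟨0, by omega⟩ : Fin (r + 3)) = j) := fun h => by rw [← h] at hj; simp at hj
    have h1 : ¬ ((⟨1, by omega⟩ : Fin (r + 3)) = j) := fun h => by rw [← h] at hj; simp at hj
    have h2 : ¬ ((⟨2, by omega⟩ : Fin (r + 3)) = j) := fun h => by rw [← h] at hj; simp at hj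
    simp only
    rw [if_neg h0, if_neg h1, if_neg h2]
    ring

/-- the system of the example -/
def exSys (m N : ℕ) [NeZero N] :
    Finset ((Fin m × Fin m × ZMod N) × (Fin m × Fin m × ZMod N) × (Fin m × Fin m × ZMod N)) :=
  (univ : Finset (Fin m × Fin m × Fin m × ZMod N × ZMod N)).image fun w =>
    ((w.1, w.2.1, w.2.2.2.1), (w.2.1, w.2.2.1, w.2.2.2.2), (w.1, w.2.2.1, w.2.2.2.1 + w.2.2.2.2))

lemma exSys_card (m N : ℕ) [NeZero N] : (exSys m N).card = m ^ 3 * N ^ 2 := by
  unfold exSys
  rw [card_image_of_injective]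
  · simp only [card_univ, Fintype.card_prod, Fintype.card_fin, ZMod.card]
    ring
  · rintro ⟨a, b, c, d, e⟩ ⟨a', b', c', d', e'⟩ h
    simp only [Prod.mk.injEq] at h ⊢
    tauto

lemma exSys_lin (m N : ℕ) [NeZero N] : Lin (exSys m N) := by
  intro e he e' he' h
  obtain ⟨⟨a, b, c, d, f⟩, -, rfl⟩ := mem_image.1 he
  obtain ⟨⟨a', b', c', d', f'⟩, -, rfl⟩ := mem_image.1 he'
  simp only [Prod.mk.injEq] at h ⊢
  rcases h with ⟨⟨h1, h2, h3⟩, h4, h5, h6⟩ | ⟨⟨h1, h2, h3⟩, h4, h5, h6⟩ | ⟨⟨h1, h2, h3⟩, h4, h5, h6⟩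
  · subst_vars; simp
  · subst_vars
    have : f = f' := add_left_cancel h6
    subst this; simp
  · subst_vars
    have : d = d' := add_right_cancel h6
    subst this; simp

lemma exSys_cl {m N r : ℕ} [NeZero N] (t : (Fin (r + 3) → Fin m) → Fin m) :
    Cl (exOp (N := N) t) (exOp t) (exOp t) (exSys m N) := by
  intro a ha
  choose w hw using fun l => mem_image.1 (ha l)
  have hw := fun l => (hw l).2
  refine mem_image.2 ⟨(t fun l => (w l).1, t fun l => (w l).2.1, t fun l => (w l).2.2.1,
    (w ⟨1, by omega⟩).2.2.2.1 - (w ⟨0, by omega⟩).2.2.2.1 + (w ⟨2, by omega⟩).2.2.2.1,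
    (w ⟨1, by omega⟩).2.2.2.2 - (w ⟨0, by omega⟩).2.2.2.2 + (w ⟨2, by omega⟩).2.2.2.2), mem_univ _, ?_⟩
  have e : a = fun l => (((w l).1, (w l).2.1, (w l).2.2.2.1), ((w l).2.1, (w l).2.2.1, (w l).2.2.2.2),
      ((w l).1, (w l).2.2.1, (w l).2.2.2.1 + (w l).2.2.2.2)) := by
    ext1 l
    exact (hw l).symm
  rw [e]
  refine Prod.ext rfl (Prod.ext rfl (Prod.ext rfl (Prod.ext rfl ?_)))
  simp only [exOp]
  ring

lemma exSys_latin {m N : ℕ} [NeZero N] {A B C : Finset (Fin m × Fin m × ZMod N)}
    (h : Latin (exSys m N) A B C) : A.card ≤ N := by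
  rcases A.eq_empty_or_nonempty with hA | ⟨a0, ha0⟩
  · rw [hA]; simp
  obtain ⟨hAB, hBC, h1, h2, h3⟩ := h
  have hB : B.Nonempty := card_pos.1 (by rw [← hAB]; exact card_pos.2 ⟨a0, ha0⟩)
  have hC : C.Nonempty := card_pos.1 (by rw [← hBC, ← hAB]; exact card_pos.2 ⟨a0, ha0⟩)
  obtain ⟨b0, hb0⟩ := hB
  obtain ⟨c0, hc0⟩ := hC
  have key : ∀ a ∈ A, a.1 = c0.1 ∧ a.2.1 = b0.1 := by
    intro a ha
    obtain ⟨c, -, hc⟩ := h1 a ha b0 hb0
    obtain ⟨b, -, hb⟩ := h2 a ha c0 hc0
    obtain ⟨w, -, hw⟩ := mem_image.1 hc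
    obtain ⟨w', -, hw'⟩ := mem_image.1 hb
    have hw := hw
    simp only [Prod.ext_iff] at hw hw'
    exact ⟨hw'.1.1.symm.trans hw'.2.2.1, hw.1.2.1.symm.trans hw.2.1.1⟩
  calc A.card = (A.image fun a => a.2.2).card := by
        rw [card_image_of_injOn]
        intro a ha b hb hab
        have h4 := key a ha
        have h5 := key b hb
        exact Prod.ext (h4.1.trans h5.1.symm) (Prod.ext (h4.2.trans h5.2.symm) hab)
    _ ≤ N := by
        refine (card_le_univ _).trans ?_
        rw [ZMod.card]

end examples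

end Q112.ED
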