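import Pool.Agent.Q112.ED.Core

/-!
Tripartite triple systems closed under edge operations: growing configurations.
-/

set_option autoImplicit false
set_option linter.unusedSectionVars false

open Finset Relation

namespace Q112.ED

variable {X Y Z : Type*} [DecidableEq X] [DecidableEq Y] [DecidableEq Z]

/-- a large component of a link contains a tree with any given number of triples (helper123) -/
lemma exists_tree {H : Finset (X × Y × Z)} {h : X × Y × Z} (C : Finset (X × Y × Z)) (hhC : h ∈ C)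
    (hC : ∀ g ∈ C, ReflTransGen (Rz H) h g) (hCc : ∀ g, ReflTransGen (Rz H) h g → g ∈ C)
    (m : ℕ) : m + 1 ≤ C.card → ∃ T ⊆ C, T.card = m + 1 ∧ h ∈ T ∧ (∀ g ∈ T, g.2.2 = h.2.2) ∧
      (T.image fun g => g.1).card + (T.image fun g => g.2.1).card ≤ m + 2 := by
  induction m with
  | zero =>
    intro _
    refine ⟨{h}, singleton_subset_iff.2 hhC, by simp, by simp, by simp, by simp⟩
  | succ m ih =>
    intro hm
    obtain ⟨T, hT, hTc, hhT, hz, hv⟩ := ih (by omega)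
    obtain ⟨c, hcC, hcT⟩ : ∃ c ∈ C, c ∉ T := by
      by_contra hcon
      push Not at hcon
      have := card_le_card (show C ⊆ T from hcon)
      omega
    -- an edge leaving `T`
    have hex : ∀ g, ReflTransGen (Rz H) h g → g ∉ T → ∃ a ∈ T, ∃ b, b ∉ T ∧ Rz H a b ∧
        ReflTransGen (Rz H) h b := by
      intro g hg
      induction hg with
      | refl => exact fun h1 => absurd hhT h1
      | tail hab hbc ih2 =>
        rename_i b c
        intro hc
        by_cases hb : b ∈ T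
        · exact ⟨b, hb, c, hc, hbc, hab.tail hbc⟩
        · exact ih2 hb
    obtain ⟨a, ha, b, hb, hab, hhb⟩ := hex c (hC c hcC) hcT
    refine ⟨insert b T, insert_subset (hCc b hhb) hT, by rw [card_insert_of_notMem hb, hTc],
      mem_insert_of_mem hhT, ?_, ?_⟩
    · intro g hg
      rcases mem_insert.1 hg with rfl | hg
      · rw [← hab.2, hz a ha]
      · exact hz g hg
    · rw [image_insert, image_insert]
      rcases hab.1.2.2 with h1 | h1
      · have h2 : b.1 ∈ T.image fun g => g.1 := mem_image.2 ⟨a, ha, h1⟩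
        rw [insert_eq_self.2 h2]
        have := card_insert_le b.2.1 (T.image fun g => g.2.1)
        omega
      · have h2 : b.2.1 ∈ T.image fun g => g.2.1 := mem_image.2 ⟨a, ha, h1⟩
        rw [insert_eq_self.2 h2]
        have := card_insert_le b.1 (T.image fun g => g.1)
        omega

section
variable (H : Finset (X × Y × Z)) (h0 : X × Y × Z)

open Classical in
/-- the part of the component of `h0` with the third coordinate of `h0` -/
noncomputable def L : Finset (X × Y × Z) :=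
  H.filter fun g => g.2.2 = h0.2.2 ∧ ReflTransGen (R H) h0 g

open Classical in
/-- the part of the component of `h0` over the rows and columns of `L` -/
noncomputable def K0 : Finset (X × Y × Z) :=
  H.filter fun g => ReflTransGen (R H) h0 g ∧ (∃ a ∈ L H h0, a.1 = g.1) ∧ ∃ b ∈ L H h0, b.2.1 = g.2.1

/-- the members of `K0` on given vertices -/
noncomputable def E (A : Finset X) (B : Finset Y) (C : Finset Z) : Finset (X × Y × Z) :=
  (K0 H h0).filter fun g => g.1 ∈ A ∧ g.2.1 ∈ B ∧ g.2.2 ∈ C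

/-- the class in the link -/
def cls (g : X × Y × Z) : Set (X × Y × Z) := {g' | ReflTransGen (Rz H) g g'}

/-- admissible sets of vertices -/
def Ok (A : Finset X) (B : Finset Y) (C : Finset Z) : Prop :=
  h0.1 ∈ A ∧ h0.2.2 ∈ C ∧ (∀ a ∈ A, ∃ g ∈ L H h0, g.1 = a) ∧ (∀ b ∈ B, ∃ g ∈ L H h0, g.2.1 = b) ∧
    ∀ c ∈ C, ∃ g ∈ K0 H h0, g.2.2 = c

/-- sets of vertices which cannot be extended by one vertex -/
def Cld (A : Finset X) (B : Finset Y) (C : Finset Z) : Prop :=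
  ∀ g ∈ K0 H h0, (g.1 ∈ A → g.2.1 ∈ B → g.2.2 ∈ C) ∧ (g.1 ∈ A → g.2.2 ∈ C → g.2.1 ∈ B) ∧
    (g.2.1 ∈ B → g.2.2 ∈ C → g.1 ∈ A)

open Classical in
/-- the classes that occur -/
noncomputable def Cs (A : Finset X) : Finset (Set (X × Y × Z)) :=
  ((L H h0).filter fun g => g.1 ∈ A).image (cls H)

variable {H h0}

lemma mem_L {g : X × Y × Z} : g ∈ L H h0 ↔ g ∈ H ∧ g.2.2 = h0.2.2 ∧ ReflTransGen (R H) h0 g := by
  classical
  unfold L
  simp only [mem_filter]

lemma mem_K0 {g : X × Y × Z} : g ∈ K0 H h0 ↔ g ∈ H ∧ ReflTransGen (R H) h0 g ∧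
    (∃ a ∈ L H h0, a.1 = g.1) ∧ ∃ b ∈ L H h0, b.2.1 = g.2.1 := by
  classical
  unfold K0
  simp only [mem_filter]

lemma mem_E {A : Finset X} {B : Finset Y} {C : Finset Z} {g : X × Y × Z} :
    g ∈ E H h0 A B C ↔ g ∈ K0 H h0 ∧ g.1 ∈ A ∧ g.2.1 ∈ B ∧ g.2.2 ∈ C := by
  unfold E
  rw [mem_filter]

lemma L_sub {g : X × Y × Z} (h : g ∈ L H h0) : g ∈ K0 H h0 := by
  have h1 := mem_L.1 h
  exact mem_K0.2 ⟨h1.1, h1.2.2, ⟨g, h, rfl⟩, ⟨g, h, rfl⟩⟩

lemma self_mem_L (hh : h0 ∈ H) : h0 ∈ L H h0 := mem_L.2 ⟨hh, rfl, ReflTransGen.refl⟩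

lemma cls_eq {a b : X × Y × Z} (h : ReflTransGen (Rz H) a b) : cls H a = cls H b := by
  ext g
  exact ⟨fun h1 => (RRz.symm h).trans h1, fun h1 => h.trans h1⟩

lemma of_cls_eq {a b : X × Y × Z} (h : cls H a = cls H b) : ReflTransGen (Rz H) a b := by
  have h1 : b ∈ cls H b := ReflTransGen.refl
  rw [← h] at h1
  exact h1

lemma L_trans {a b : X × Y × Z} (ha : a ∈ L H h0) (h : ReflTransGen (Rz H) a b) : b ∈ L H h0 := by
  have h1 := mem_L.1 ha
  exact mem_L.2 ⟨RR.mem h1.1 (RRz.toR h), (RRz.z h).symm.trans h1.2.1, h1.2.2.trans (RRz.toR h)⟩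

/-- two members of the link with the same first coordinate are in the same class -/
lemma cls_x {a b : X × Y × Z} (ha : a ∈ L H h0) (hb : b ∈ L H h0) (h : a.1 = b.1) :
    cls H a = cls H b := by
  have h1 := mem_L.1 ha
  have h2 := mem_L.1 hb
  exact cls_eq (ReflTransGen.single ⟨⟨h1.1, h2.1, Or.inl h⟩, h1.2.1.trans h2.2.1.symm⟩)

lemma cls_y {a b : X × Y × Z} (ha : a ∈ L H h0) (hb : b ∈ L H h0) (h : a.2.1 = b.2.1) :
    cls H a = cls H b := by
  have h1 := mem_L.1 ha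
  have h2 := mem_L.1 hb
  exact cls_eq (ReflTransGen.single ⟨⟨h1.1, h2.1, Or.inr h⟩, h1.2.1.trans h2.2.1.symm⟩)

/-- in a closed set the classes are complete -/
lemma closed_trans {A : Finset X} {B : Finset Y} {C : Finset Z} (hok : Ok H h0 A B C)
    (hcl : Cld H h0 A B C) {a b : X × Y × Z} (ha : a ∈ L H h0) (haA : a.1 ∈ A)
    (h : ReflTransGen (Rz H) a b) : b ∈ L H h0 ∧ b.1 ∈ A ∧ b.2.1 ∈ B := by
  induction h with
  | refl =>
    refine ⟨ha, haA, (hcl a (L_sub ha)).2.1 haA ?_⟩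
    rw [(mem_L.1 ha).2.1]; exact hok.2.1
  | @tail b c _ hbc ih =>
    obtain ⟨h1, h2, h3⟩ := ih
    have hc : c ∈ L H h0 := L_trans h1 (ReflTransGen.single hbc)
    have hz : c.2.2 ∈ C := by rw [(mem_L.1 hc).2.1]; exact hok.2.1
    rcases hbc.1.2.2 with h4 | h4
    · have h5 : c.1 ∈ A := h4 ▸ h2
      exact ⟨hc, h5, (hcl c (L_sub hc)).2.1 h5 hz⟩
    · have h5 : c.2.1 ∈ B := h4 ▸ h3
      exact ⟨hc, (hcl c (L_sub hc)).2.2 h5 hz, h5⟩

/-- the inequality for forests -/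
lemma forest {A : Finset X} {B : Finset Y} {C : Finset Z} (hok : Ok H h0 A B C)
    (hcl : Cld H h0 A B C) :
    A.card + B.card ≤ ((L H h0).filter fun g => g.1 ∈ A).card + (Cs H h0 A).card := by
  classical
  set LW := (L H h0).filter fun g => g.1 ∈ A with hLW
  have hsum : LW.card = ∑ κ ∈ Cs H h0 A, (LW.filter fun g => cls H g = κ).card :=
    card_eq_sum_card_image (cls H) LW
  have h1 : ∀ κ ∈ Cs H h0 A, ((LW.filter fun g => cls H g = κ).image fun g => g.1).card +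
      ((LW.filter fun g => cls H g = κ).image fun g => g.2.1).card ≤
      (LW.filter fun g => cls H g = κ).card + 1 := by
    intro κ hκ
    obtain ⟨h, hh, rfl⟩ := mem_image.1 hκ
    have hh' := mem_filter.1 hh
    set Cκ := LW.filter fun g => cls H g = cls H h with hCκ
    have hhC : h ∈ Cκ := mem_filter.2 ⟨hh, rfl⟩
    have hC : ∀ g ∈ Cκ, ReflTransGen (Rz H) h g := fun g hg => of_cls_eq (mem_filter.1 hg).2.symm
    have hCc : ∀ g, ReflTransGen (Rz H) h g → g ∈ Cκ := by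
      intro g hg
      obtain ⟨h2, h3, -⟩ := closed_trans hok hcl hh'.1 hh'.2 hg
      exact mem_filter.2 ⟨mem_filter.2 ⟨h2, h3⟩, (cls_eq hg).symm⟩
    have hpos : 0 < Cκ.card := card_pos.2 ⟨h, hhC⟩
    obtain ⟨T, hT, hTc, -, -, hTv⟩ := exists_tree Cκ hhC hC hCc (Cκ.card - 1) (by omega)
    have hTe : T = Cκ := eq_of_subset_of_card_le hT (by omega)
    rw [hTe] at hTv
    omega
  have h2 : A.card ≤ ∑ κ ∈ Cs H h0 A, ((LW.filter fun g => cls H g = κ).image fun g => g.1).card := by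
    refine (card_le_card ?_).trans card_biUnion_le
    intro a ha
    obtain ⟨g, hg, rfl⟩ := hok.2.2.1 a ha
    have hgL : g ∈ LW := mem_filter.2 ⟨hg, ha⟩
    exact mem_biUnion.2 ⟨cls H g, mem_image_of_mem _ hgL,
      mem_image.2 ⟨g, mem_filter.2 ⟨hgL, rfl⟩, rfl⟩⟩
  have h3 : B.card ≤ ∑ κ ∈ Cs H h0 A, ((LW.filter fun g => cls H g = κ).image fun g => g.2.1).card := by
    refine (card_le_card ?_).trans card_biUnion_le
    intro b hb
    obtain ⟨g, hg, rfl⟩ := hok.2.2.2.1 b hb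
    have hz : g.2.2 ∈ C := by rw [(mem_L.1 hg).2.1]; exact hok.2.1
    have hgL : g ∈ LW := mem_filter.2 ⟨hg, (hcl g (L_sub hg)).2.2 hb hz⟩
    exact mem_biUnion.2 ⟨cls H g, mem_image_of_mem _ hgL,
      mem_image.2 ⟨g, mem_filter.2 ⟨hgL, rfl⟩, rfl⟩⟩
  calc A.card + B.card ≤ ∑ κ ∈ Cs H h0 A, (((LW.filter fun g => cls H g = κ).image fun g => g.1).card +
      ((LW.filter fun g => cls H g = κ).image fun g => g.2.1).card) := by
        rw [sum_add_distrib]; exact add_le_add h2 h3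
    _ ≤ ∑ κ ∈ Cs H h0 A, ((LW.filter fun g => cls H g = κ).card + 1) := sum_le_sum h1
    _ = LW.card + (Cs H h0 A).card := by rw [sum_add_distrib, ← hsum, sum_const, smul_eq_mul, mul_one]

/-- the number of classes is small -/
lemma classes_le {A : Finset X} {B : Finset Y} {C : Finset Z} (hok : Ok H h0 A B C)
    (hcl : Cld H h0 A B C) : (Cs H h0 A).card ≤ A.card ∧ (Cs H h0 A).card ≤ B.card := by
  classical
  constructor
  · refine (card_le_card ?_).trans (card_image_le (s := A)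
      (f := fun a => {g' | ∃ v ∈ L H h0, v.1 = a ∧ ReflTransGen (Rz H) v g'}))
    intro κ hκ
    obtain ⟨h, hh, rfl⟩ := mem_image.1 hκ
    have hh' := mem_filter.1 hh
    refine mem_image.2 ⟨h.1, hh'.2, ?_⟩
    ext g
    constructor
    · rintro ⟨v, hv, hvx, hvg⟩
      rw [cls_x hh'.1 hv hvx.symm]
      exact hvg
    · intro hg
      exact ⟨h, hh'.1, rfl, hg⟩
  · refine (card_le_card ?_).trans (card_image_le (s := B)
      (f := fun b => {g' | ∃ v ∈ L H h0, v.2.1 = b ∧ ReflTransGen (Rz H) v g'}))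
    intro κ hκ
    obtain ⟨h, hh, rfl⟩ := mem_image.1 hκ
    have hh' := mem_filter.1 hh
    refine mem_image.2 ⟨h.2.1, (closed_trans hok hcl hh'.1 hh'.2 ReflTransGen.refl).2.2, ?_⟩
    ext g
    constructor
    · rintro ⟨v, hv, hvx, hvg⟩
      rw [cls_y hh'.1 hv hvx.symm]
      exact hvg
    · intro hg
      exact ⟨h, hh'.1, rfl, hg⟩

end

section
variable {ι : Type*} [DecidableEq ι] [Fintype ι] {i0 : ι} {H : Finset (X × Y × Z)}
    {pX : X → X → X → X} {pY : Y → Y → Y → Y} {pZ : Z → Z → Z → Z}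
    {sX : (ι → X) → X} {sY : (ι → Y) → Y} {sZ : (ι → Z) → Z} {h0 : X × Y × Z}
    (hS : Sys i0 H pX pY pZ sX sY sZ) (hh0 : h0 ∈ H)
include hS hh0

lemma L_P {a b c : X × Y × Z} (ha : a ∈ L H h0) (hb : b ∈ L H h0) (hc : c ∈ L H h0) :
    P pX pY pZ a b c ∈ L H h0 := by
  have h1 := mem_L.1 ha
  have h2 := mem_L.1 hb
  have h3 := mem_L.1 hc
  refine mem_L.2 ⟨P_mem hS h1.1 h2.1 h3.1, ?_, P_conn hS hh0 h1.2.2 h2.2.2 h3.2.2⟩
  change pZ a.2.2 b.2.2 c.2.2 = h0.2.2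
  rw [h1.2.1, h2.2.1, h3.2.1]
  exact hS.gZ.pid _

lemma L_chain {a b : X × Y × Z} (ha : a ∈ L H h0) (hb : b ∈ L H h0) :
    ReflTransGen (Rz H) b (P pX pY pZ a a b) := by
  have h1 := mem_L.1 ha
  have h2 := mem_L.1 hb
  exact chain hS h2.1 h1.1 (h2.2.1.trans h1.2.1.symm) ((RR.symm h2.2.2).trans h1.2.2)

/-- every symbol occurs in every class of rows -/
lemma symb_x {g h : X × Y × Z} (hg : g ∈ K0 H h0) (hh : h ∈ L H h0) :
    ∃ g' ∈ K0 H h0, g'.2.2 = g.2.2 ∧ ∃ v ∈ L H h0, ReflTransGen (Rz H) h v ∧ g'.1 = v.1 := by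
  obtain ⟨hgH, hgc, ⟨a, ha, hax⟩, ⟨b, hb, hby⟩⟩ := mem_K0.1 hg
  have ha' := mem_L.1 ha
  have hh' := mem_L.1 hh
  have hv := L_P hS hh0 ha ha hh
  have e1 : (P pX pY pZ g a h).1 = (P pX pY pZ a a h).1 := by
    change pX g.1 a.1 h.1 = pX a.1 a.1 h.1
    rw [hax]
  refine ⟨P pX pY pZ g a h, mem_K0.2 ⟨P_mem hS hgH ha'.1 hh'.1,
    P_conn hS hh0 hgc ha'.2.2 hh'.2.2, ⟨_, hv, e1.symm⟩, ⟨P pX pY pZ b a h, L_P hS hh0 hb ha hh, ?_⟩⟩,
    ?_, _, hv, L_chain hS hh0 ha hh, e1⟩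
  · change pY b.2.1 a.2.1 h.2.1 = pY g.2.1 a.2.1 h.2.1
    rw [hby]
  · change pZ g.2.2 a.2.2 h.2.2 = g.2.2
    rw [ha'.2.1, hh'.2.1]
    exact hS.gZ.p1 _ _

/-- every symbol occurs in every class of columns -/
lemma symb_y {g h : X × Y × Z} (hg : g ∈ K0 H h0) (hh : h ∈ L H h0) :
    ∃ g' ∈ K0 H h0, g'.2.2 = g.2.2 ∧ ∃ v ∈ L H h0, ReflTransGen (Rz H) h v ∧ g'.2.1 = v.2.1 := by
  obtain ⟨hgH, hgc, ⟨b, hb, hby⟩, ⟨a, ha, hax⟩⟩ := mem_K0.1 hg
  have ha' := mem_L.1 ha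
  have hh' := mem_L.1 hh
  have hv := L_P hS hh0 ha ha hh
  have e1 : (P pX pY pZ g a h).2.1 = (P pX pY pZ a a h).2.1 := by
    change pY g.2.1 a.2.1 h.2.1 = pY a.2.1 a.2.1 h.2.1
    rw [hax]
  refine ⟨P pX pY pZ g a h, mem_K0.2 ⟨P_mem hS hgH ha'.1 hh'.1,
    P_conn hS hh0 hgc ha'.2.2 hh'.2.2, ⟨P pX pY pZ b a h, L_P hS hh0 hb ha hh, ?_⟩, ⟨_, hv, e1.symm⟩⟩,
    ?_, _, hv, L_chain hS hh0 ha hh, e1⟩
  · change pX b.1 a.1 h.1 = pX g.1 a.1 h.1
    rw [hby]
  · change pZ g.2.2 a.2.2 h.2.2 = g.2.2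
    rw [ha'.2.1, hh'.2.1]
    exact hS.gZ.p1 _ _

/-- every cell of classes is occupied -/
lemma cell {h1 h2 : X × Y × Z} (hh1 : h1 ∈ L H h0) (hh2 : h2 ∈ L H h0) :
    ∃ g ∈ K0 H h0, g.1 = h1.1 ∧ ∃ v ∈ L H h0, ReflTransGen (Rz H) h2 v ∧ g.2.1 = v.2.1 := by
  have h1' := mem_L.1 hh1
  have h2' := mem_L.1 hh2
  obtain ⟨⟨g, hg, hgx, hgy⟩, -⟩ := rect hS h1'.1 ((RR.symm h1'.2.2).trans h2'.2.2)
  have hv := L_P hS hh0 hh1 hh1 hh2
  exact ⟨g, mem_K0.2 ⟨RR.mem h1'.1 hg, h1'.2.2.trans hg, ⟨h1, hh1, hgx.symm⟩, ⟨_, hv, hgy.symm⟩⟩,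
    hgx, _, hv, L_chain hS hh0 hh1 hh2, hgy⟩

/-- closed sets have many triples -/
lemma closed_ineq {A : Finset X} {B : Finset Y} {C : Finset Z} (hok : Ok H h0 A B C)
    (hcl : Cld H h0 A B C) : A.card + B.card + C.card ≤ (E H h0 A B C).card + 2 := by
  classical
  have hf := forest hok hcl
  set LW := (L H h0).filter fun g => g.1 ∈ A with hLW
  set t := (Cs H h0 A).card with ht
  have hsum : (E H h0 A B C).card = ∑ c ∈ C, ((E H h0 A B C).filter fun g => g.2.2 = c).card :=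
    card_eq_sum_card_fiberwise fun g hg => (mem_E.1 hg).2.2.2
  have hz0 : LW.card ≤ ((E H h0 A B C).filter fun g => g.2.2 = h0.2.2).card := by
    refine card_le_card fun g hg => ?_
    have hg' := mem_filter.1 hg
    obtain ⟨h1, h2, h3⟩ := closed_trans hok hcl hg'.1 hg'.2 ReflTransGen.refl
    have hz := (mem_L.1 h1).2.1
    exact mem_filter.2 ⟨mem_E.2 ⟨L_sub h1, h2, h3, by rw [hz]; exact hok.2.1⟩, hz⟩
  have hc : ∀ c ∈ C, t ≤ ((E H h0 A B C).filter fun g => g.2.2 = c).card := by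
    intro c hc
    refine (card_le_card ?_).trans (card_image_le (s := (E H h0 A B C).filter fun g => g.2.2 = c)
      (f := fun g => {g' | ∃ v ∈ L H h0, v.1 = g.1 ∧ ReflTransGen (Rz H) v g'}))
    intro κ hκ
    obtain ⟨h, hh, rfl⟩ := mem_image.1 hκ
    have hh' := mem_filter.1 hh
    obtain ⟨g, hg, rfl⟩ := hok.2.2.2.2 c hc
    obtain ⟨g', hg', hgz, v, hv, hhv, hgv⟩ := symb_x hS hh0 hg hh'.1
    obtain ⟨-, hvA, -⟩ := closed_trans hok hcl hh'.1 hh'.2 hhv
    have h1 : g'.1 ∈ A := by rw [hgv]; exact hvA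
    have h2 : g'.2.2 ∈ C := by rw [hgz]; exact hc
    refine mem_image.2 ⟨g', mem_filter.2 ⟨mem_E.2 ⟨hg', h1, (hcl g' hg').2.1 h1 h2, h2⟩, hgz⟩, ?_⟩
    ext u
    constructor
    · rintro ⟨w, hw, hwx, hwu⟩
      rw [cls_eq hhv, cls_x hv hw (hgv.symm.trans hwx.symm)]
      exact hwu
    · intro hu
      exact ⟨v, hv, hgv.symm, (RRz.symm hhv).trans hu⟩
  have hE : LW.card + (C.card - 1) * t ≤ (E H h0 A B C).card := by
    rw [hsum, ← add_sum_erase C _ hok.2.1]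
    refine add_le_add hz0 ?_
    rw [← card_erase_of_mem hok.2.1, ← smul_eq_mul, ← sum_const]
    exact sum_le_sum fun c hc' => hc c (mem_of_mem_erase hc')
  have ht1 : 1 ≤ t := by
    obtain ⟨g, hg, hgx⟩ := hok.2.2.1 _ hok.1
    exact card_pos.2 ⟨cls H g, mem_image_of_mem _ (mem_filter.2 ⟨hg, by rw [hgx]; exact hok.1⟩)⟩
  have hC1 : 1 ≤ C.card := card_pos.2 ⟨_, hok.2.1⟩
  rcases Nat.lt_or_ge 1 C.card with hC | hC
  · obtain ⟨k, hk⟩ := Nat.exists_eq_add_of_le hC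
    have h5 : (C.card - 1) * t = t + k * t := by
      rw [hk, show 2 + k - 1 = k + 1 by omega]; ring
    have h6 : k ≤ k * t := Nat.le_mul_of_pos_right k ht1
    omega
  · -- only one symbol: only one class
    have ht2 : t ≤ 1 := by
      rw [ht, card_le_one]
      intro κ1 hκ1 κ2 hκ2
      obtain ⟨h1, hh1, rfl⟩ := mem_image.1 hκ1
      obtain ⟨h2, hh2, rfl⟩ := mem_image.1 hκ2
      have hh1' := mem_filter.1 hh1
      have hh2' := mem_filter.1 hh2
      obtain ⟨g, hg, hgx, v, hv, hhv, hgv⟩ := cell hS hh0 hh1'.1 hh2'.1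
      obtain ⟨-, -, hvB⟩ := closed_trans hok hcl hh2'.1 hh2'.2 hhv
      have hgA : g.1 ∈ A := by rw [hgx]; exact hh1'.2
      have hgB : g.2.1 ∈ B := by rw [hgv]; exact hvB
      have hgC := (hcl g hg).1 hgA hgB
      have hgz : g.2.2 = h0.2.2 := card_le_one.1 hC _ hgC _ hok.2.1
      have hgL : g ∈ L H h0 := mem_L.2 ⟨(mem_K0.1 hg).1, hgz, (mem_K0.1 hg).2.1⟩
      rw [cls_x hh1'.1 hgL hgx.symm, cls_y hgL hv hgv, cls_eq hhv]
    have h5 : (C.card - 1) * t = 0 := by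
      rw [show C.card - 1 = 0 by omega, zero_mul]
    omega

omit [Fintype ι] hS hh0 in
/-- adding one vertex -/
lemma step1 {A : Finset X} {B : Finset Y} {C : Finset Z} (hok : Ok H h0 A B C)
    (hcl : ¬ Cld H h0 A B C) : ∃ A' B' C', Ok H h0 A' B' C' ∧
      A'.card + B'.card + C'.card = A.card + B.card + C.card + 1 ∧
      (E H h0 A B C).card + 1 ≤ (E H h0 A' B' C').card := by
  classical
  unfold Cld at hcl
  push Not at hcl
  obtain ⟨g, hg, hcl⟩ := hcl
  have hgK := mem_K0.1 hg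
  obtain ⟨a, ha, hax⟩ := hgK.2.2.1
  obtain ⟨b, hb, hby⟩ := hgK.2.2.2
  by_cases h1 : g.1 ∈ A → g.2.1 ∈ B → g.2.2 ∈ C
  · by_cases h2 : g.1 ∈ A → g.2.2 ∈ C → g.2.1 ∈ B
    · obtain ⟨h3, h4, h5⟩ := hcl h1 h2
      refine ⟨insert g.1 A, B, C, ⟨mem_insert_of_mem hok.1, hok.2.1, ?_, hok.2.2.2.1, hok.2.2.2.2⟩, ?_, ?_⟩
      · intro x hx
        rcases mem_insert.1 hx with rfl | hx
        · exact ⟨a, ha, hax⟩
        · exact hok.2.2.1 x hx
      · rw [card_insert_of_notMem h5]; omega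
      · refine card_lt_card ((ssubset_iff_of_subset ?_).2 ⟨g, mem_E.2 ⟨hg, mem_insert_self _ _, h3, h4⟩, ?_⟩)
        · intro u hu
          have hu' := mem_E.1 hu
          exact mem_E.2 ⟨hu'.1, mem_insert_of_mem hu'.2.1, hu'.2.2.1, hu'.2.2.2⟩
        · intro hu
          exact h5 (mem_E.1 hu).2.1
    · push Not at h2
      obtain ⟨h3, h4, h5⟩ := h2
      refine ⟨A, insert g.2.1 B, C, ⟨hok.1, hok.2.1, hok.2.2.1, ?_, hok.2.2.2.2⟩, ?_, ?_⟩
      · intro x hx
        rcases mem_insert.1 hx with rfl | hx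
        · exact ⟨b, hb, hby⟩
        · exact hok.2.2.2.1 x hx
      · rw [card_insert_of_notMem h5]; omega
      · refine card_lt_card ((ssubset_iff_of_subset ?_).2 ⟨g, mem_E.2 ⟨hg, h3, mem_insert_self _ _, h4⟩, ?_⟩)
        · intro u hu
          have hu' := mem_E.1 hu
          exact mem_E.2 ⟨hu'.1, hu'.2.1, mem_insert_of_mem hu'.2.2.1, hu'.2.2.2⟩
        · intro hu
          exact h5 (mem_E.1 hu).2.2.1
  · push Not at h1
    obtain ⟨h3, h4, h5⟩ := h1
    refine ⟨A, B, insert g.2.2 C, ⟨hok.1, mem_insert_of_mem hok.2.1, hok.2.2.1, hok.2.2.2.1, ?_⟩, ?_, ?_⟩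
    · intro x hx
      rcases mem_insert.1 hx with rfl | hx
      · exact ⟨g, hg, rfl⟩
      · exact hok.2.2.2.2 x hx
    · rw [card_insert_of_notMem h5]; omega
    · refine card_lt_card ((ssubset_iff_of_subset ?_).2 ⟨g, mem_E.2 ⟨hg, h3, h4, mem_insert_self _ _⟩, ?_⟩)
      · intro u hu
        have hu' := mem_E.1 hu
        exact mem_E.2 ⟨hu'.1, hu'.2.1, hu'.2.2.1, mem_insert_of_mem hu'.2.2.2⟩
      · intro hu
        exact h5 (mem_E.1 hu).2.2.2

omit [Fintype ι] hS hh0 in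
/-- adding a new class -/
lemma step2 {A : Finset X} {B : Finset Y} {C : Finset Z} (hok : Ok H h0 A B C)
    (hcl : Cld H h0 A B C) (hN : (Cs H h0 A).card < (Set.ncard (cls H '' (L H h0 : Set (X × Y × Z))))) :
    ∃ A' B' C', Ok H h0 A' B' C' ∧
      A'.card + B'.card + C'.card = A.card + B.card + C.card + 2 ∧
      (E H h0 A B C).card + 1 ≤ (E H h0 A' B' C').card := by
  classical
  obtain ⟨h, hh, hhn⟩ : ∃ h ∈ L H h0, cls H h ∉ Cs H h0 A := by
    by_contra hcon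
    push Not at hcon
    have h1 : cls H '' (L H h0 : Set (X × Y × Z)) ⊆ ((Cs H h0 A : Finset _) : Set (Set (X × Y × Z))) := by
      rintro κ ⟨g, hg, rfl⟩
      exact hcon g hg
    have h2 := Set.ncard_le_ncard h1 (finite_toSet _)
    rw [Set.ncard_coe_finset] at h2
    omega
  have hz : h.2.2 = h0.2.2 := (mem_L.1 hh).2.1
  have hx : h.1 ∉ A := fun h1 => hhn (mem_image_of_mem _ (mem_filter.2 ⟨hh, h1⟩))
  have hy : h.2.1 ∉ B := fun h1 => hx ((hcl h (L_sub hh)).2.2 h1 (by rw [hz]; exact hok.2.1))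
  refine ⟨insert h.1 A, insert h.2.1 B, C, ⟨mem_insert_of_mem hok.1, hok.2.1, ?_, ?_, hok.2.2.2.2⟩, ?_, ?_⟩
  · intro x hx
    rcases mem_insert.1 hx with rfl | hx
    · exact ⟨h, hh, rfl⟩
    · exact hok.2.2.1 x hx
  · intro x hx
    rcases mem_insert.1 hx with rfl | hx
    · exact ⟨h, hh, rfl⟩
    · exact hok.2.2.2.1 x hx
  · rw [card_insert_of_notMem hx, card_insert_of_notMem hy]; omega
  · refine card_lt_card ((ssubset_iff_of_subset ?_).2 ⟨h, mem_E.2 ⟨L_sub hh, mem_insert_self _ _,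
      mem_insert_self _ _, by rw [hz]; exact hok.2.1⟩, ?_⟩)
    · intro u hu
      have hu' := mem_E.1 hu
      exact mem_E.2 ⟨hu'.1, mem_insert_of_mem hu'.2.1, mem_insert_of_mem hu'.2.2.1, hu'.2.2.2⟩
    · intro hu
      exact hx (mem_E.1 hu).2.1

/-- growth: if there are more than `s / 2` classes, some `s` triples have at most `s + 3` vertices -/
lemma grow (s : ℕ) (hN : s / 2 < Set.ncard (cls H '' (L H h0 : Set (X × Y × Z)))) :
    ∃ A B C, A.card + B.card + C.card ≤ s + 3 ∧ s ≤ (E H h0 A B C).card := by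
  classical
  have key : ∀ j, j ≤ s → ∃ A B C, Ok H h0 A B C ∧
      ((A.card + B.card + C.card = j + 3 ∧ j ≤ (E H h0 A B C).card) ∨
        (A.card + B.card + C.card = j + 2 ∧ Cld H h0 A B C ∧ j ≤ (E H h0 A B C).card)) := by
    intro j
    induction j with
    | zero =>
      intro _
      refine ⟨{h0.1}, {h0.2.1}, {h0.2.2}, ⟨mem_singleton_self _, mem_singleton_self _, ?_, ?_, ?_⟩,
        Or.inl ⟨by simp, Nat.zero_le _⟩⟩
      · intro a ha
        rw [mem_singleton] at ha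
        exact ⟨h0, self_mem_L hh0, ha.symm⟩
      · intro a ha
        rw [mem_singleton] at ha
        exact ⟨h0, self_mem_L hh0, ha.symm⟩
      · intro a ha
        rw [mem_singleton] at ha
        exact ⟨h0, L_sub (self_mem_L hh0), ha.symm⟩
    | succ j ih =>
      intro hj
      obtain ⟨A, B, C, hok, h1 | h1⟩ := ih (by omega)
      · by_cases hcl : Cld H h0 A B C
        · have h2 := closed_ineq hS hh0 hok hcl
          exact ⟨A, B, C, hok, Or.inr ⟨by omega, hcl, by omega⟩⟩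
        · obtain ⟨A', B', C', hok', h2, h3⟩ := step1 hok hcl
          exact ⟨A', B', C', hok', Or.inl ⟨by omega, by omega⟩⟩
      · obtain ⟨h2, hcl, h3⟩ := h1
        have h4 := classes_le hok hcl
        have h5 : 1 ≤ C.card := card_pos.2 ⟨_, hok.2.1⟩
        obtain ⟨A', B', C', hok', h6, h7⟩ := step2 hok hcl (by omega)
        exact ⟨A', B', C', hok', Or.inl ⟨by omega, by omega⟩⟩
  obtain ⟨A, B, C, -, h1 | h1⟩ := key s le_rfl
  · exact ⟨A, B, C, by omega, by omega⟩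
  · exact ⟨A, B, C, by omega, by omega⟩

/-- the size of the link component in sparse systems -/
lemma link_card (s : ℕ) (hs : 0 < s)
    (hsp : ∀ T : Finset (X × Y × Z), T ⊆ H → T.card = s →
      s + 3 < (T.image fun g => g.1).card + (T.image fun g => g.2.1).card +
        (T.image fun g => g.2.2).card) : (L H h0).card ≤ (s - 1) * (s / 2) := by
  classical
  have hN : Set.ncard (cls H '' (L H h0 : Set (X × Y × Z))) ≤ s / 2 := by
    by_contra hcon
    push Not at hcon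
    obtain ⟨A, B, C, h1, h2⟩ := grow hS hh0 s hcon
    obtain ⟨T, hT, hTc⟩ := exists_subset_card_eq h2
    have h3 := hsp T (fun g hg => (mem_K0.1 (mem_E.1 (hT hg)).1).1) hTc
    have h4 : (T.image fun g => g.1).card ≤ A.card := by
      refine card_le_card fun a ha => ?_
      obtain ⟨g, hg, rfl⟩ := mem_image.1 ha
      exact (mem_E.1 (hT hg)).2.1
    have h5 : (T.image fun g => g.2.1).card ≤ B.card := by
      refine card_le_card fun a ha => ?_
      obtain ⟨g, hg, rfl⟩ := mem_image.1 ha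
      exact (mem_E.1 (hT hg)).2.2.1
    have h6 : (T.image fun g => g.2.2).card ≤ C.card := by
      refine card_le_card fun a ha => ?_
      obtain ⟨g, hg, rfl⟩ := mem_image.1 ha
      exact (mem_E.1 (hT hg)).2.2.2
    omega
  rw [← coe_image, Set.ncard_coe_finset] at hN
  refine (card_le_mul_card_image (L H h0) (s - 1) ?_).trans (Nat.mul_le_mul_left _ hN)
  intro κ hκ
  obtain ⟨h, hh, rfl⟩ := mem_image.1 hκ
  by_contra hcon
  push Not at hcon
  obtain ⟨T, hT, hTc, -, hTz, hTv⟩ := exists_tree ((L H h0).filter fun g => cls H g = cls H h)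
    (mem_filter.2 ⟨hh, rfl⟩) (fun g hg => of_cls_eq (mem_filter.1 hg).2.symm)
    (fun g hg => mem_filter.2 ⟨L_trans hh hg, (cls_eq hg).symm⟩) (s - 1) (by omega)
  have h1 := hsp T (fun g hg => (mem_L.1 (mem_filter.1 (hT hg)).1).1) (by omega)
  have h2 : (T.image fun g => g.2.2).card ≤ 1 := by
    rw [card_le_one]
    intro a ha b hb
    obtain ⟨g, hg, rfl⟩ := mem_image.1 ha
    obtain ⟨g', hg', rfl⟩ := mem_image.1 hb
    rw [hTz g hg, hTz g' hg']
  omega

end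

end Q112.ED
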