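import Pool.Agent.Q112.ED.Wnu

/-!
Tripartite triple systems closed under weak near unanimity operations: the theorem.
-/

set_option autoImplicit false
set_option linter.unusedSectionVars false

open Finset Relation

namespace Q112.WN

open Q112.ED

section amplify
variable {X Y Z : Type*}

/-- the composition of two operations -/
def comp {D κ μ : Type*} (w : (κ → D) → D) (v : (μ → D) → D) (a : κ × μ → D) : D :=
  w fun i => v fun k => a (i, k)

lemma comp_idem {D κ μ : Type*} {w : (κ → D) → D} {v : (μ → D) → D} (hw : Idem w) (hv : Idem v) :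
    Idem (comp w v) := by
  intro x
  change w (fun i => v fun k => x) = x
  have : (fun _ : κ => v fun _ => x) = fun _ => x := by ext i; exact hv x
  rw [this]
  exact hw x

lemma comp_wnu {D κ μ : Type*} [DecidableEq κ] [DecidableEq μ] {w : (κ → D) → D} {v : (μ → D) → D}
    (hw : Wnu w) (hv : Wnu v) : Wnu (comp w v) := by
  refine ⟨comp_idem hw.1 hv.1, ?_⟩
  have key : ∀ (i : κ) (k : μ) (x y : D), comp w v (Function.update (fun _ => x) (i, k) y) =
      w (Function.update (fun _ => x) i (v (Function.update (fun _ => x) k y))) := by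
    intro i k x y
    change w (fun i' => v fun k' => Function.update (fun _ => x) (i, k) y (i', k')) = _
    congr 1
    ext i'
    by_cases h1 : i' = i
    · rw [h1, Function.update_self]
      congr 1
      ext k'
      by_cases h2 : k' = k
      · rw [h2, Function.update_self, Function.update_self]
      · rw [Function.update_of_ne h2, Function.update_of_ne]
        intro h3
        exact h2 (congrArg Prod.snd h3)
    · rw [Function.update_of_ne h1]
      have : (fun k' => Function.update (fun _ : κ × μ => x) (i, k) y (i', k')) = fun _ => x := by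
        ext k'
        rw [Function.update_of_ne]
        intro h3
        exact h1 (congrArg Prod.fst h3)
      rw [this]
      exact hv.1 x
  rintro ⟨i, k⟩ ⟨j, l⟩ x y
  rw [key, key, hv.2 k l, hw.2 i j]

lemma comp_cl {κ μ : Type*} {H : Finset (X × Y × Z)} {wX : (κ → X) → X} {wY : (κ → Y) → Y}
    {wZ : (κ → Z) → Z} {vX : (μ → X) → X} {vY : (μ → Y) → Y} {vZ : (μ → Z) → Z}
    (hw : ClK wX wY wZ H) (hv : ClK vX vY vZ H) : ClK (comp wX vX) (comp wY vY) (comp wZ vZ) H := by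
  intro a ha
  exact hw (fun i => (vX fun k => (a (i, k)).1, vY fun k => (a (i, k)).2.1, vZ fun k => (a (i, k)).2.2))
    fun i => hv (fun k => a (i, k)) fun k => ha (i, k)

/-- operations of large arity -/
lemma exists_large {r : ℕ} (hr : 2 ≤ r) {H : Finset (X × Y × Z)} {wX : (Fin r → X) → X}
    {wY : (Fin r → Y) → Y} {wZ : (Fin r → Z) → Z} (hX : Idem wX) (hY : Idem wY) (hZ : Wnu wZ)
    (hcl : ClK wX wY wZ H) (N : ℕ) :
    ∃ (κ : Type) (_ : Fintype κ) (_ : DecidableEq κ) (vX : (κ → X) → X) (vY : (κ → Y) → Y)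
      (vZ : (κ → Z) → Z), N + 1 ≤ Fintype.card κ ∧ Idem vX ∧ Idem vY ∧ Wnu vZ ∧ ClK vX vY vZ H := by
  induction N with
  | zero => exact ⟨Fin r, inferInstance, inferInstance, wX, wY, wZ, by simp; omega, hX, hY, hZ, hcl⟩
  | succ N ih =>
    obtain ⟨κ, _, _, vX, vY, vZ, hN, h1, h2, h3, h4⟩ := ih
    refine ⟨Fin r × κ, inferInstance, inferInstance, comp wX vX, comp wY vY, comp wZ vZ, ?_,
      comp_idem hX h1, comp_idem hY h2, comp_wnu hZ h3, comp_cl hcl h4⟩
    rw [Fintype.card_prod, Fintype.card_fin]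
    nlinarith

end amplify

section
variable {X Y Z : Type*} [DecidableEq X] [DecidableEq Y] [DecidableEq Z] {H : Finset (X × Y × Z)}

lemma codeg_xy {s : ℕ} (hsp : Sparse s H) (x : X) (y : Y) :
    (H.filter fun g => g.1 = x ∧ g.2.1 = y).card ≤ s - 1 := by
  by_contra hcon
  push Not at hcon
  obtain ⟨T, hT, hTc⟩ := exists_subset_card_eq
    (show s ≤ (H.filter fun g => g.1 = x ∧ g.2.1 = y).card by omega)
  have h1 := hsp T (hT.trans (filter_subset _ _)) hTc
  have h2 : (T.image fun g => g.1).card ≤ 1 := by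
    rw [card_le_one]
    intro a ha b hb
    obtain ⟨g, hg, rfl⟩ := mem_image.1 ha
    obtain ⟨g', hg', rfl⟩ := mem_image.1 hb
    rw [(mem_filter.1 (hT hg)).2.1, (mem_filter.1 (hT hg')).2.1]
  have h3 : (T.image fun g => g.2.1).card ≤ 1 := by
    rw [card_le_one]
    intro a ha b hb
    obtain ⟨g, hg, rfl⟩ := mem_image.1 ha
    obtain ⟨g', hg', rfl⟩ := mem_image.1 hb
    rw [(mem_filter.1 (hT hg)).2.2, (mem_filter.1 (hT hg')).2.2]
  have h4 : (T.image fun g => g.2.2).card ≤ T.card := card_image_le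
  omega

lemma codeg_xz {s : ℕ} (hsp : Sparse s H) (x : X) (z : Z) :
    (H.filter fun g => g.1 = x ∧ g.2.2 = z).card ≤ s - 1 := by
  by_contra hcon
  push Not at hcon
  obtain ⟨T, hT, hTc⟩ := exists_subset_card_eq
    (show s ≤ (H.filter fun g => g.1 = x ∧ g.2.2 = z).card by omega)
  have h1 := hsp T (hT.trans (filter_subset _ _)) hTc
  have h2 : (T.image fun g => g.1).card ≤ 1 := by
    rw [card_le_one]
    intro a ha b hb
    obtain ⟨g, hg, rfl⟩ := mem_image.1 ha
    obtain ⟨g', hg', rfl⟩ := mem_image.1 hb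
    rw [(mem_filter.1 (hT hg)).2.1, (mem_filter.1 (hT hg')).2.1]
  have h3 : (T.image fun g => g.2.2).card ≤ 1 := by
    rw [card_le_one]
    intro a ha b hb
    obtain ⟨g, hg, rfl⟩ := mem_image.1 ha
    obtain ⟨g', hg', rfl⟩ := mem_image.1 hb
    rw [(mem_filter.1 (hT hg)).2.2, (mem_filter.1 (hT hg')).2.2]
  have h4 : (T.image fun g => g.2.1).card ≤ T.card := card_image_le
  omega

lemma codeg_yz {s : ℕ} (hsp : Sparse s H) (y : Y) (z : Z) :
    (H.filter fun g => g.2.1 = y ∧ g.2.2 = z).card ≤ s - 1 := by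
  by_contra hcon
  push Not at hcon
  obtain ⟨T, hT, hTc⟩ := exists_subset_card_eq
    (show s ≤ (H.filter fun g => g.2.1 = y ∧ g.2.2 = z).card by omega)
  have h1 := hsp T (hT.trans (filter_subset _ _)) hTc
  have h2 : (T.image fun g => g.2.1).card ≤ 1 := by
    rw [card_le_one]
    intro a ha b hb
    obtain ⟨g, hg, rfl⟩ := mem_image.1 ha
    obtain ⟨g', hg', rfl⟩ := mem_image.1 hb
    rw [(mem_filter.1 (hT hg)).2.1, (mem_filter.1 (hT hg')).2.1]
  have h3 : (T.image fun g => g.2.2).card ≤ 1 := by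
    rw [card_le_one]
    intro a ha b hb
    obtain ⟨g, hg, rfl⟩ := mem_image.1 ha
    obtain ⟨g', hg', rfl⟩ := mem_image.1 hb
    rw [(mem_filter.1 (hT hg)).2.2, (mem_filter.1 (hT hg')).2.2]
  have h4 : (T.image fun g => g.1).card ≤ T.card := card_image_le
  omega

/-- two triples with at least two common coordinates -/
def Near (a b : X × Y × Z) : Prop :=
  (a.1 = b.1 ∧ a.2.1 = b.2.1) ∨ (a.1 = b.1 ∧ a.2.2 = b.2.2) ∨ (a.2.1 = b.2.1 ∧ a.2.2 = b.2.2)

/-- a large linear subsystem -/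
lemma exists_linear {s : ℕ} (hsp : Sparse s H) : ∃ t ⊆ H,
    (∀ a ∈ t, ∀ b ∈ t, Near a b → a = b) ∧ H.card ≤ 3 * (s - 1) * t.card := by
  classical
  obtain ⟨t, ht, hmax⟩ := exists_max_image (H.powerset.filter fun t => ∀ a ∈ t, ∀ b ∈ t, Near a b → a = b)
    card ⟨∅, by simp⟩
  rw [mem_filter, mem_powerset] at ht
  refine ⟨t, ht.1, ht.2, ?_⟩
  have hex : ∀ g ∈ H, ∃ a ∈ t, Near g a := by
    intro g hg
    by_cases hgt : g ∈ t
    · exact ⟨g, hgt, Or.inl ⟨rfl, rfl⟩⟩
    by_contra hcon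
    push Not at hcon
    have hsymm : ∀ a b : X × Y × Z, Near a b → Near b a := by
      rintro a b (h | h | h)
      · exact Or.inl ⟨h.1.symm, h.2.symm⟩
      · exact Or.inr (Or.inl ⟨h.1.symm, h.2.symm⟩)
      · exact Or.inr (Or.inr ⟨h.1.symm, h.2.symm⟩)
    have h1 : insert g t ∈ H.powerset.filter fun t => ∀ a ∈ t, ∀ b ∈ t, Near a b → a = b := by
      rw [mem_filter, mem_powerset]
      refine ⟨insert_subset hg ht.1, ?_⟩
      intro a ha b hb hab
      rcases mem_insert.1 ha with ha | ha <;> rcases mem_insert.1 hb with hb | hb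
      · rw [ha, hb]
      · rw [ha] at hab; exact absurd hab (hcon b hb)
      · rw [hb] at hab; exact absurd (hsymm _ _ hab) (hcon a ha)
      · exact ht.2 a ha b hb hab
    have h2 := hmax _ h1
    rw [card_insert_of_notMem hgt] at h2
    omega
  choose! f hf hf' using hex
  have h1 := card_le_mul_card_image_of_maps_to (f := f) (s := H) (t := t) hf (3 * (s - 1)) ?_
  · exact h1
  · intro a _
    have h2 : H.filter (fun g => f g = a) ⊆ (H.filter fun g => g.1 = a.1 ∧ g.2.1 = a.2.1) ∪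
        ((H.filter fun g => g.1 = a.1 ∧ g.2.2 = a.2.2) ∪ H.filter fun g => g.2.1 = a.2.1 ∧ g.2.2 = a.2.2) := by
      intro g hg
      rw [mem_filter] at hg
      have h3 := hf' g hg.1
      rw [hg.2] at h3
      rw [mem_union, mem_union, mem_filter, mem_filter, mem_filter]
      rcases h3 with h3 | h3 | h3
      · exact Or.inl ⟨hg.1, h3⟩
      · exact Or.inr (Or.inl ⟨hg.1, h3⟩)
      · exact Or.inr (Or.inr ⟨hg.1, h3⟩)
    have h4 := (card_le_card h2).trans ((card_union_le _ _).trans (add_le_add le_rfl (card_union_le _ _)))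
    have h5 := codeg_xy hsp a.1 a.2.1
    have h6 := codeg_xz hsp a.1 a.2.2
    have h7 := codeg_yz hsp a.2.1 a.2.2
    omega

/-- every pair of the shadow has a bounded number of common neighbours -/
lemma common {κ : Type*} [DecidableEq κ] [Fintype κ] {wX : (κ → X) → X} {wY : (κ → Y) → Y}
    {wZ : (κ → Z) → Z} [Fintype Y] (hX : Idem wX) (hY : Idem wY) (hZ : Wnu wZ) (hcl : ClK wX wY wZ H)
    {s : ℕ} (hs : 1 ≤ s) (hκ : s ≤ Fintype.card κ) (hsp : Sparse s H) (x : X) (c : Z)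
    (hxc : ∃ y, (x, y, c) ∈ H) (B : Finset Y)
    (hB : ∀ b ∈ B, (∃ z, (x, b, z) ∈ H) ∧ ∃ x', (x', b, c) ∈ H) : B.card ≤ (s - 1) * (s + 1) := by
  obtain ⟨y, hy⟩ := hxc
  choose f hf using fun b : B => (hB b b.2).1
  choose g hg using fun b : B => (hB b b.2).2
  have h1 : Book H (x, y, c) (fun b : B => (g b, (b : Y), c)) fun b : B => (x, (b : Y), f b) :=
    ⟨hy, hg, hf, fun _ => rfl, fun _ => rfl, fun _ => rfl, fun a b hab => Subtype.ext hab⟩
  have h2 := book_small hX hY hZ hcl h1 hs hκ hsp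
  rwa [Fintype.card_coe] at h2

open SimpleGraph TripartiteFromTriangles in
/-- the number of triangles of the shadow -/
lemma triangles_le [Fintype X] [Fintype Y] [Fintype Z] {κ : Type*} [DecidableEq κ] [Fintype κ]
    {wX : (κ → X) → X} {wY : (κ → Y) → Y}
    {wZ : (κ → Z) → Z} (hX : Idem wX) (hY : Idem wY) (hZ : Wnu wZ) (hcl : ClK wX wY wZ H)
    {s : ℕ} (hs : 1 ≤ s) (hκ : s ≤ Fintype.card κ) (hsp : Sparse s H) (t : Finset (X × Y × Z))
    (ht : t ⊆ H) :
    ((graph t).cliqueFinset 3).card ≤ (s - 1) * (s + 1) * (Fintype.card X * Fintype.card Z) := by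
  classical
  set Tr : Finset (X × Y × Z) := univ.filter fun w => (∃ z, (w.1, w.2.1, z) ∈ t) ∧
    (∃ y, (w.1, y, w.2.2) ∈ t) ∧ ∃ x, (x, w.2.1, w.2.2) ∈ t with hTr
  have h1 : (graph t).cliqueFinset 3 ⊆ Tr.map toTriangle := by
    intro q hq
    rw [mem_cliqueFinset_iff, is3Clique_iff] at hq
    obtain ⟨x, y, z, hxy, hxz, hyz, rfl⟩ := hq
    obtain ⟨a, b, c, habc, hab, hac, hbc⟩ := graph_triple hxy hxz hyz
    rw [mem_map]
    refine ⟨(a, b, c), mem_filter.2 ⟨mem_univ _, ?_, ?_, ?_⟩, habc⟩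
    · exact Graph.in₀₁_iff.1 hab
    · exact Graph.in₀₂_iff.1 hac
    · exact Graph.in₁₂_iff.1 hbc
  refine (card_le_card h1).trans ?_
  rw [card_map, ← Fintype.card_prod, ← card_univ (α := X × Z)]
  refine card_le_mul_card_image_of_maps_to (f := fun w : X × Y × Z => (w.1, w.2.2))
    (fun _ _ => mem_univ _) _ ?_
  rintro ⟨x, c⟩ -
  rcases (Tr.filter fun w => (w.1, w.2.2) = (x, c)).eq_empty_or_nonempty with h2 | ⟨w0, hw0⟩
  · rw [h2]; simp
  have h3 : (Tr.filter fun w => (w.1, w.2.2) = (x, c)).card =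
      ((Tr.filter fun w => (w.1, w.2.2) = (x, c)).image fun w => w.2.1).card := by
    rw [card_image_of_injOn]
    intro a ha b hb hab
    have ha' := (mem_filter.1 ha).2
    have hb' := (mem_filter.1 hb).2
    have h4 := ha'.trans hb'.symm
    rw [Prod.mk.injEq] at h4
    exact Prod.ext h4.1 (Prod.ext hab h4.2)
  rw [h3]
  refine common hX hY hZ hcl hs hκ hsp x c ?_ _ ?_
  · rw [mem_filter] at hw0
    have h4 := (mem_filter.1 hw0.1).2.2.1
    have h5 := Prod.mk.inj hw0.2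
    obtain ⟨y, hy⟩ := h4
    rw [h5.1, h5.2] at hy
    exact ⟨y, ht hy⟩
  · intro b hb
    obtain ⟨w, hw, rfl⟩ := mem_image.1 hb
    rw [mem_filter] at hw
    have h4 := (mem_filter.1 hw.1).2
    have h5 := Prod.mk.inj hw.2
    obtain ⟨z, hz⟩ := h4.1
    obtain ⟨x', hx'⟩ := h4.2.2
    rw [h5.1] at hz
    rw [h5.2] at hx'
    exact ⟨⟨z, ht hz⟩, ⟨x', ht hx'⟩⟩

end

open SimpleGraph TripartiteFromTriangles in
/-- the theorem -/
theorem main (s : ℕ) (hs : 0 < s) (ε : ℝ) (hε : 0 < ε) : ∃ n₀ : ℕ, ∀ n : ℕ, n₀ ≤ n →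
    ∀ (X Y Z : Type) [Fintype X] [Fintype Y] [Fintype Z] [DecidableEq X] [DecidableEq Y]
      [DecidableEq Z], Fintype.card X ≤ n → Fintype.card Y ≤ n → Fintype.card Z ≤ n →
    ∀ (r : ℕ), 2 ≤ r → ∀ (wX : (Fin r → X) → X) (wY : (Fin r → Y) → Y) (wZ : (Fin r → Z) → Z),
      Idem wX → Idem wY → Wnu wZ → ∀ H : Finset (X × Y × Z), ClK wX wY wZ H → Sparse s H →
        (H.card : ℝ) ≤ ε * (n : ℝ) ^ 2 := by
  set δ := triangleRemovalBound (ε / (27 * s)) with hδ
  have hs' : (0 : ℝ) < s := by exact_mod_cast hs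
  have hδpos : 0 < δ := triangleRemovalBound_pos (by positivity)
  obtain ⟨n₀, hn₀⟩ := exists_nat_gt (s * ((s : ℝ) ^ 2 / δ + 1) ^ 2 / ε + 1)
  refine ⟨n₀, ?_⟩
  intro n hn X Y Z _ _ _ _ _ _ hXn hYn hZn r hr wX wY wZ hX hY hZ H hcl hsp
  by_contra hcon
  push Not at hcon
  have hn1 : (s * ((s : ℝ) ^ 2 / δ + 1) ^ 2 / ε + 1) < n := lt_of_lt_of_le hn₀ (by exact_mod_cast hn)
  have hn1' : (1 : ℝ) ≤ n := by
    have : (0 : ℝ) ≤ s * ((s : ℝ) ^ 2 / δ + 1) ^ 2 / ε := by positivity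
    linarith
  obtain ⟨κ, _, _, vX, vY, vZ, hκ, h1, h2, h3, h4⟩ := exists_large hr hX hY hZ hcl s
  obtain ⟨t, ht, hlin, htc⟩ := exists_linear hsp
  haveI : ExplicitDisjoint t := by
    refine ⟨?_, ?_, ?_⟩
    · intro a b c a' ha ha'
      exact congrArg (fun g : X × Y × Z => g.1) (hlin _ ha _ ha' (Or.inr (Or.inr ⟨rfl, rfl⟩)))
    · intro a b c b' ha ha'
      exact congrArg (fun g : X × Y × Z => g.2.1) (hlin _ ha _ ha' (Or.inr (Or.inl ⟨rfl, rfl⟩)))
    · intro a b c c' ha ha'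
      exact congrArg (fun g : X × Y × Z => g.2.2) (hlin _ ha _ ha' (Or.inl ⟨rfl, rfl⟩))
  set N := Fintype.card X + Fintype.card Y + Fintype.card Z with hN
  have hN3 : (N : ℝ) ≤ 3 * n := by
    have : N ≤ 3 * n := by omega
    exact_mod_cast this
  have htc' : (H.card : ℝ) ≤ 3 * s * t.card := by
    have h5 : H.card ≤ 3 * s * t.card := htc.trans (Nat.mul_le_mul_right _ (by omega))
    exact_mod_cast h5
  have hfar : (graph t).FarFromTriangleFree (ε / (27 * s)) := by
    refine farFromTriangleFree t ?_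
    have h5 : (((Fintype.card X + Fintype.card Y + Fintype.card Z) ^ 2 : ℕ) : ℝ) ≤ 9 * (n : ℝ) ^ 2 := by
      push_cast
      have : ((Fintype.card X : ℝ) + Fintype.card Y + Fintype.card Z) ≤ 3 * n := by
        have := hN3
        rw [hN] at this
        push_cast at this
        exact this
      nlinarith [show (0 : ℝ) ≤ (Fintype.card X : ℝ) + Fintype.card Y + Fintype.card Z by positivity]
    calc ε / (27 * s) * (((Fintype.card X + Fintype.card Y + Fintype.card Z) ^ 2 : ℕ) : ℝ)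
        ≤ ε / (27 * s) * (9 * (n : ℝ) ^ 2) := mul_le_mul_of_nonneg_left h5 (by positivity)
      _ = ε * (n : ℝ) ^ 2 / (3 * s) := by field_simp; ring
      _ ≤ H.card / (3 * s) := by gcongr
      _ ≤ t.card := by
          rw [div_le_iff₀ (by positivity)]
          linarith
  have h5 := hfar.le_card_cliqueFinset
  rw [← hδ] at h5
  have h6 := triangles_le h1 h2 h3 h4 hs (by omega : s ≤ Fintype.card κ) hsp t ht
  have hcardN : (Fintype.card (X ⊕ Y ⊕ Z) : ℝ) = N := by
    rw [hN, Fintype.card_sum, Fintype.card_sum]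
    push_cast
    ring
  rw [hcardN] at h5
  have h7 : (((graph t).cliqueFinset 3).card : ℝ) ≤ (s : ℝ) ^ 2 * (N : ℝ) ^ 2 := by
    have h8 : ((graph t).cliqueFinset 3).card ≤ s ^ 2 * N ^ 2 := by
      refine h6.trans (Nat.mul_le_mul ?_ ?_)
      · obtain ⟨k, rfl⟩ := Nat.exists_eq_add_of_lt hs
        simp only [zero_add, Nat.add_sub_cancel]
        nlinarith
      · rw [sq]
        exact Nat.mul_le_mul (by omega) (by omega)
    exact_mod_cast h8
  have hNs : (N : ℝ) ≤ (s : ℝ) ^ 2 / δ := by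
    rw [le_div_iff₀ hδpos]
    rcases Nat.eq_zero_or_pos N with h8 | h8
    · rw [h8]; simp
    · have h9 : (0 : ℝ) < N := by exact_mod_cast h8
      have h10 : δ * (N : ℝ) ^ 3 ≤ (s : ℝ) ^ 2 * (N : ℝ) ^ 2 := h5.trans h7
      have h11 : (N : ℝ) * δ * (N : ℝ) ^ 2 ≤ (s : ℝ) ^ 2 * (N : ℝ) ^ 2 := by
        calc (N : ℝ) * δ * (N : ℝ) ^ 2 = δ * (N : ℝ) ^ 3 := by ring
          _ ≤ _ := h10
      exact le_of_mul_le_mul_right h11 (by positivity)
  have hHN : (H.card : ℝ) ≤ s * (N : ℝ) ^ 2 := by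
    have h8 : H.card ≤ (s - 1) * (Fintype.card X * Fintype.card Y) := by
      rw [← Fintype.card_prod, ← card_univ (α := X × Y)]
      refine card_le_mul_card_image_of_maps_to (f := fun w : X × Y × Z => (w.1, w.2.1))
        (fun _ _ => mem_univ _) _ ?_
      rintro ⟨x, y⟩ -
      refine (card_le_card ?_).trans (codeg_xy hsp x y)
      intro g hg
      rw [mem_filter] at hg ⊢
      exact ⟨hg.1, Prod.mk.inj hg.2⟩
    have h9 : H.card ≤ s * N ^ 2 := by
      refine h8.trans (Nat.mul_le_mul (by omega) ?_)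
      rw [sq]
      exact Nat.mul_le_mul (by omega) (by omega)
    exact_mod_cast h9
  have hfin : ε * (n : ℝ) ^ 2 < s * ((s : ℝ) ^ 2 / δ + 1) ^ 2 := by
    calc ε * (n : ℝ) ^ 2 < H.card := hcon
      _ ≤ s * (N : ℝ) ^ 2 := hHN
      _ ≤ s * ((s : ℝ) ^ 2 / δ + 1) ^ 2 := by
          gcongr
          linarith
  have hfin2 : s * ((s : ℝ) ^ 2 / δ + 1) ^ 2 < ε * n := by
    have h8 : s * ((s : ℝ) ^ 2 / δ + 1) ^ 2 / ε < n := by linarith
    rw [div_lt_iff₀ hε] at h8
    linarith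
  have hn2 : ε * (n : ℝ) ≤ ε * (n : ℝ) ^ 2 := by
    refine mul_le_mul_of_nonneg_left ?_ hε.le
    rw [sq]
    exact le_mul_of_one_le_left (by linarith) hn1'
  linarith

end Q112.WN
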