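import Pool.Agent.Q112.ED.Removal
import Pool.Agent.Q112.ED.Edge

/-!
# Uniform hypergraphs: projection to three classes
-/

set_option autoImplicit false

open Finset

namespace Q112.UN

variable {r : ℕ} {X : Fin r → Type} [∀ i, DecidableEq (X i)]

/-- the projection to three coordinates -/
def pr (i j k : Fin r) (g : ∀ l, X l) : X i × X j × X k := (g i, g j, g k)

/-- the number of vertices spanned by a set of edges -/
def spn (T : Finset (∀ l, X l)) : ℕ := ∑ l, (T.image fun g => g l).card

/-- every `e` edges span more than `(r - 2) e + 3` vertices -/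
def Spr (e : ℕ) (H : Finset (∀ l, X l)) : Prop :=
  ∀ T : Finset (∀ l, X l), T ⊆ H → T.card = e → (r - 2) * e + 3 < spn T

/-- the vertices in the classes `i`, `j`, `k` and the others -/
lemma spn_le {i j k : Fin r} (hij : i ≠ j) (hik : i ≠ k) (hjk : j ≠ k) (T : Finset (∀ l, X l)) :
    spn T ≤ (T.image fun g => g i).card + (T.image fun g => g j).card + (T.image fun g => g k).card +
      (r - 3) * T.card := by
  classical
  unfold spn
  have h1 : ({i, j, k} : Finset (Fin r)).card = 3 := by
    rw [card_insert_of_notMem (by simp [hij, hik]), card_insert_of_notMem (by simp [hjk]),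
      card_singleton]
  rw [← sum_add_sum_compl ({i, j, k} : Finset (Fin r))]
  have h2 : ∑ l ∈ ({i, j, k} : Finset (Fin r))ᶜ, (T.image fun g => g l).card ≤ (r - 3) * T.card := by
    refine (sum_le_card_nsmul _ _ T.card fun l _ => card_image_le).trans ?_
    rw [card_compl, h1, Fintype.card_fin, smul_eq_mul]
  have h3 : ∑ l ∈ ({i, j, k} : Finset (Fin r)), (T.image fun g => g l).card =
      (T.image fun g => g i).card + (T.image fun g => g j).card + (T.image fun g => g k).card := by
    rw [sum_insert (by simp [hij, hik]), sum_insert (by simp [hjk]), sum_singleton, add_assoc]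
  omega

/-- the three classes are different, so `r` is at least three -/
lemma three_le {i j k : Fin r} (hij : i ≠ j) (hik : i ≠ k) (hjk : j ≠ k) : 3 ≤ r := by
  classical
  have h1 : ({i, j, k} : Finset (Fin r)).card = 3 := by
    rw [card_insert_of_notMem (by simp [hij, hik]), card_insert_of_notMem (by simp [hjk]),
      card_singleton]
  have h2 := card_le_univ ({i, j, k} : Finset (Fin r))
  rw [h1, Fintype.card_fin] at h2
  exact h2

variable {i j k : Fin r} {H : Finset (∀ l, X l)} {e : ℕ}

/-- the projection is sparse -/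
lemma sparse_pr (hij : i ≠ j) (hik : i ≠ k) (hjk : j ≠ k) (h : Spr e H) :
    Q112.WN.Sparse e (H.image (pr i j k)) := by
  classical
  intro T hT hTc
  have hr := three_le hij hik hjk
  obtain ⟨T', hT', hinj⟩ : ∃ T' : Finset (∀ l, X l), T' ⊆ H ∧ T'.card = e ∧ T'.image (pr i j k) = T := by
    have h1 : ∀ t : T, ∃ g ∈ H, pr i j k g = t := fun t => mem_image.1 (hT t.2)
    choose f hf hft using h1
    refine ⟨univ.image f, ?_, ?_, ?_⟩
    · intro g hg
      obtain ⟨t, _, rfl⟩ := mem_image.1 hg
      exact hf t
    · rw [card_image_of_injective, card_univ, Fintype.card_coe, hTc]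
      intro a b hab
      apply Subtype.ext
      rw [← hft a, ← hft b, hab]
    · ext t
      simp only [mem_image, mem_univ, true_and, exists_exists_eq_and, hft]
      constructor
      · rintro ⟨a, rfl⟩
        exact a.2
      · intro ht
        exact ⟨⟨t, ht⟩, rfl⟩
  obtain ⟨hc, himg⟩ := hinj
  have h1 := h T' hT' hc
  have h2 := spn_le hij hik hjk T'
  rw [hc] at h2
  have h3 : ((T.image fun g => g.1).card) = (T'.image fun g => g i).card := by
    rw [← himg, image_image]; rfl
  have h4 : ((T.image fun g => g.2.1).card) = (T'.image fun g => g j).card := by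
    rw [← himg, image_image]; rfl
  have h5 : ((T.image fun g => g.2.2).card) = (T'.image fun g => g k).card := by
    rw [← himg, image_image]; rfl
  rw [h3, h4, h5]
  obtain ⟨q, rfl⟩ := Nat.exists_eq_add_of_le hr
  have h6 : (3 + q - 2) * e = (3 + q - 3) * e + e := by
    rw [show 3 + q - 2 = (3 + q - 3) + 1 by omega]; ring
  omega

/-- the fibres of the projection are small -/
lemma card_le_pr (hij : i ≠ j) (hik : i ≠ k) (hjk : j ≠ k) (h : Spr e H) (he : 0 < e) :
    H.card ≤ (e - 1) * (H.image (pr i j k)).card := by
  classical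
  refine card_le_mul_card_image H (e - 1) fun t ht => ?_
  by_contra hcon
  push Not at hcon
  obtain ⟨T, hT, hTc⟩ := exists_subset_card_eq (show e ≤ (H.filter fun g => pr i j k g = t).card by omega)
  have h1 := h T (hT.trans (filter_subset _ _)) hTc
  have h2 := spn_le hij hik hjk T
  rw [hTc] at h2
  have hr := three_le hij hik hjk
  have h3 : (T.image fun g => g i).card ≤ 1 := by
    refine card_le_one.2 fun a ha b hb => ?_
    obtain ⟨g, hg, rfl⟩ := mem_image.1 ha
    obtain ⟨g', hg', rfl⟩ := mem_image.1 hb
    have e1 := (mem_filter.1 (hT hg)).2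
    have e2 := (mem_filter.1 (hT hg')).2
    exact congrArg Prod.fst (e1.trans e2.symm)
  have h4 : (T.image fun g => g j).card ≤ 1 := by
    refine card_le_one.2 fun a ha b hb => ?_
    obtain ⟨g, hg, rfl⟩ := mem_image.1 ha
    obtain ⟨g', hg', rfl⟩ := mem_image.1 hb
    have e1 := (mem_filter.1 (hT hg)).2
    have e2 := (mem_filter.1 (hT hg')).2
    exact congrArg (fun q : X i × X j × X k => q.2.1) (e1.trans e2.symm)
  have h5 : (T.image fun g => g k).card ≤ 1 := by
    refine card_le_one.2 fun a ha b hb => ?_
    obtain ⟨g, hg, rfl⟩ := mem_image.1 ha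
    obtain ⟨g', hg', rfl⟩ := mem_image.1 hb
    have e1 := (mem_filter.1 (hT hg)).2
    have e2 := (mem_filter.1 (hT hg')).2
    exact congrArg (fun q : X i × X j × X k => q.2.2) (e1.trans e2.symm)
  obtain ⟨q, rfl⟩ := Nat.exists_eq_add_of_le hr
  have h6 : (3 + q - 2) * e = (3 + q - 3) * e + e := by
    rw [show 3 + q - 2 = (3 + q - 3) + 1 by omega]; ring
  omega

end Q112.UN
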