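import Pool.Agent.Q112.ED.Core

/-!
Tripartite triple systems closed under weak near unanimity operations: books in the shadow are small.
-/

set_option autoImplicit false
set_option linter.unusedSectionVars false

open Finset Relation

namespace Q112.WN

open Q112.ED

/-- idempotent operations -/
def Idem {D κ : Type*} (w : (κ → D) → D) : Prop := ∀ x, w (fun _ => x) = x

/-- weak near unanimity operations -/
def Wnu {D κ : Type*} [DecidableEq κ] (w : (κ → D) → D) : Prop :=
  Idem w ∧ ∀ (i j : κ) (x y : D), w (Function.update (fun _ => x) i y) = w (Function.update (fun _ => x) j y)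

section
variable {X Y Z : Type*} [DecidableEq X] [DecidableEq Y] [DecidableEq Z]

/-- closed under componentwise operations -/
def ClK {κ : Type*} (wX : (κ → X) → X) (wY : (κ → Y) → Y) (wZ : (κ → Z) → Z)
    (H : Finset (X × Y × Z)) : Prop :=
  ∀ a : κ → X × Y × Z, (∀ l, a l ∈ H) →
    (wX fun l => (a l).1, wY fun l => (a l).2.1, wZ fun l => (a l).2.2) ∈ H

/-- the component of a triple contains a tree with any given number of triples -/
lemma exists_tree {H : Finset (X × Y × Z)} {h : X × Y × Z} (C : Finset (X × Y × Z)) (hhC : h ∈ C)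
    (hC : ∀ g ∈ C, ReflTransGen (R H) h g) (hCc : ∀ g, ReflTransGen (R H) h g → g ∈ C)
    (m : ℕ) : m + 1 ≤ C.card → ∃ T ⊆ C, T.card = m + 1 ∧ h ∈ T ∧
      (T.image fun g => g.1).card + (T.image fun g => g.2.1).card ≤ m + 2 := by
  induction m with
  | zero =>
    intro _
    refine ⟨{h}, singleton_subset_iff.2 hhC, by simp, by simp, by simp⟩
  | succ m ih =>
    intro hm
    obtain ⟨T, hT, hTc, hhT, hv⟩ := ih (by omega)
    obtain ⟨c, hcC, hcT⟩ : ∃ c ∈ C, c ∉ T := by
      by_contra hcon
      push Not at hcon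
      have := card_le_card (show C ⊆ T from hcon)
      omega
    have hex : ∀ g, ReflTransGen (R H) h g → g ∉ T → ∃ a ∈ T, ∃ b, b ∉ T ∧ R H a b ∧
        ReflTransGen (R H) h b := by
      intro g hg
      induction hg with
      | refl => exact fun h1 => absurd hhT h1
      | tail hab hbc ih2 =>
        rename_i b c
        intro hc
        by_cases hb : b ∈ T
        · exact ⟨b, hb, c, hc, hbc, hab.tail hbc⟩
        · exact ih2 hb
    obtain ⟨a, ha, b, hb, hab, hhb⟩ := hex c (hC c hcC) hcT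
    refine ⟨insert b T, insert_subset (hCc b hhb) hT, by rw [card_insert_of_notMem hb, hTc],
      mem_insert_of_mem hhT, ?_⟩
    rw [image_insert, image_insert]
    rcases hab.2.2 with h1 | h1
    · have h2 : b.1 ∈ T.image fun g => g.1 := mem_image.2 ⟨a, ha, h1⟩
      rw [insert_eq_self.2 h2]
      have := card_insert_le b.2.1 (T.image fun g => g.2.1)
      omega
    · have h2 : b.2.1 ∈ T.image fun g => g.2.1 := mem_image.2 ⟨a, ha, h1⟩
      rw [insert_eq_self.2 h2]
      have := card_insert_le b.1 (T.image fun g => g.1)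
      omega

/-- the triples on given vertices -/
def In (H : Finset (X × Y × Z)) (A : Finset X) (B : Finset Y) (C : Finset Z) : Finset (X × Y × Z) :=
  H.filter fun g => g.1 ∈ A ∧ g.2.1 ∈ B ∧ g.2.2 ∈ C

lemma mem_In {H : Finset (X × Y × Z)} {A : Finset X} {B : Finset Y} {C : Finset Z} {g : X × Y × Z} :
    g ∈ In H A B C ↔ g ∈ H ∧ g.1 ∈ A ∧ g.2.1 ∈ B ∧ g.2.2 ∈ C := by
  unfold In
  rw [mem_filter]

/-- a larger set of vertices with a new triple -/
lemma In_lt {H : Finset (X × Y × Z)} {A A' : Finset X} {B B' : Finset Y} {C C' : Finset Z}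
    {g : X × Y × Z} (hg : g ∈ H) (hA : A ⊆ A') (hB : B ⊆ B') (hC : C ⊆ C')
    (h1 : g.1 ∈ A') (h2 : g.2.1 ∈ B') (h3 : g.2.2 ∈ C')
    (h4 : ¬ (g.1 ∈ A ∧ g.2.1 ∈ B ∧ g.2.2 ∈ C)) :
    (In H A B C).card + 1 ≤ (In H A' B' C').card := by
  refine card_lt_card ((ssubset_iff_of_subset ?_).2 ⟨g, mem_In.2 ⟨hg, h1, h2, h3⟩, ?_⟩)
  · intro u hu
    have hu' := mem_In.1 hu
    exact mem_In.2 ⟨hu'.1, hA hu'.2.1, hB hu'.2.2.1, hC hu'.2.2.2⟩
  · intro hu
    exact h4 (mem_In.1 hu).2

/-- no `s` triples on at most `s + 3` vertices -/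
def Sparse (s : ℕ) (H : Finset (X × Y × Z)) : Prop :=
  ∀ T : Finset (X × Y × Z), T ⊆ H → T.card = s →
    s + 3 < (T.image fun g => g.1).card + (T.image fun g => g.2.1).card + (T.image fun g => g.2.2).card

lemma Sparse.In_lt {s : ℕ} {H : Finset (X × Y × Z)} (hsp : Sparse s H) {A : Finset X} {B : Finset Y}
    {C : Finset Z} (h : A.card + B.card + C.card ≤ s + 3) : (In H A B C).card < s := by
  by_contra hcon
  push Not at hcon
  obtain ⟨T, hT, hTc⟩ := exists_subset_card_eq hcon
  have h3 := hsp T (fun g hg => (mem_In.1 (hT hg)).1) hTc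
  have h4 : (T.image fun g => g.1).card ≤ A.card := by
    refine card_le_card fun a ha => ?_
    obtain ⟨g, hg, rfl⟩ := mem_image.1 ha
    exact (mem_In.1 (hT hg)).2.1
  have h5 : (T.image fun g => g.2.1).card ≤ B.card := by
    refine card_le_card fun a ha => ?_
    obtain ⟨g, hg, rfl⟩ := mem_image.1 ha
    exact (mem_In.1 (hT hg)).2.2.1
  have h6 : (T.image fun g => g.2.2).card ≤ C.card := by
    refine card_le_card fun a ha => ?_
    obtain ⟨g, hg, rfl⟩ := mem_image.1 ha
    exact (mem_In.1 (hT hg)).2.2.2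
  omega

end

section
variable {X Y Z κ J : Type*} [DecidableEq X] [DecidableEq Y] [DecidableEq Z] [DecidableEq κ]
  [Fintype κ] [Fintype J]
  {wX : (κ → X) → X} {wY : (κ → Y) → Y} {wZ : (κ → Z) → Z} {H : Finset (X × Y × Z)}

/-- the operation on triples -/
def W (wX : (κ → X) → X) (wY : (κ → Y) → Y) (wZ : (κ → Z) → Z) (a : κ → X × Y × Z) : X × Y × Z :=
  (wX fun l => (a l).1, wY fun l => (a l).2.1, wZ fun l => (a l).2.2)

/-- a book: the triples `h`, `hb j`, `gb j` -/
structure Book (H : Finset (X × Y × Z)) (h : X × Y × Z) (hb gb : J → X × Y × Z) : Prop where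
  h_mem : h ∈ H
  hb_mem : ∀ j, hb j ∈ H
  gb_mem : ∀ j, gb j ∈ H
  hb_z : ∀ j, (hb j).2.2 = h.2.2
  gb_x : ∀ j, (gb j).1 = h.1
  gb_y : ∀ j, (gb j).2.1 = (hb j).2.1
  inj : Function.Injective fun j => (hb j).2.1

variable {h : X × Y × Z} {hb gb : J → X × Y × Z}

/-- the elements -/
def el (h : X × Y × Z) (hb : J → X × Y × Z) : Option J → X × Y × Z
  | none => h
  | some j => hb j

/-- the triples of the link -/
def EE (wX : (κ → X) → X) (wY : (κ → Y) → Y) (wZ : (κ → Z) → Z) (h : X × Y × Z) (hb : J → X × Y × Z)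
    (e : κ → Option J) : X × Y × Z :=
  W wX wY wZ fun i => el h hb (e i)

/-- the number of positions with the value `none` -/
def cnt (e : κ → Option J) : ℕ := (univ.filter fun i => (e i).isNone).card

/-- the connecting triples -/
def GG (wX : (κ → X) → X) (wY : (κ → Y) → Y) (wZ : (κ → Z) → Z) (h : X × Y × Z)
    (hb gb : J → X × Y × Z) (e : κ → Option J) (l : κ) (j : J) : X × Y × Z :=
  W wX wY wZ fun i => if i = l then gb j else el h hb (e i)

variable (hX : Idem wX) (hY : Idem wY) (hZ : Wnu wZ) (hcl : ClK wX wY wZ H) (hB : Book H h hb gb)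

include hB in
lemma el_mem (o : Option J) : el h hb o ∈ H := by
  cases o with
  | none => exact hB.h_mem
  | some j => exact hB.hb_mem j

include hB in
lemma el_z (o : Option J) : (el h hb o).2.2 = h.2.2 := by
  cases o with
  | none => rfl
  | some j => exact hB.hb_z j

include hcl hB in
lemma EE_mem (e : κ → Option J) : EE wX wY wZ h hb e ∈ H := hcl _ fun i => el_mem hB (e i)

include hZ hB in
lemma EE_z (e : κ → Option J) : (EE wX wY wZ h hb e).2.2 = h.2.2 := by
  change wZ (fun i => (el h hb (e i)).2.2) = h.2.2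
  have : (fun i => (el h hb (e i)).2.2) = fun _ => h.2.2 := by
    ext i; exact el_z hB _
  rw [this]
  exact hZ.1 _

include hcl hB in
lemma GG_mem (e : κ → Option J) (l : κ) (j : J) : GG wX wY wZ h hb gb e l j ∈ H := by
  refine hcl _ fun i => ?_
  split_ifs
  · exact hB.gb_mem j
  · exact el_mem hB _

/-- the label of `j` -/
noncomputable def zeta (wZ : (κ → Z) → Z) (h : X × Y × Z) (gb : J → X × Y × Z) (l0 : κ) (j : J) : Z :=
  wZ (Function.update (fun _ => h.2.2) l0 (gb j).2.2)

include hZ hB in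
lemma GG_z (l0 : κ) (e : κ → Option J) (l : κ) (j : J) :
    (GG wX wY wZ h hb gb e l j).2.2 = zeta wZ h gb l0 j := by
  change wZ (fun i => (if i = l then gb j else el h hb (e i)).2.2) = _
  have : (fun i => (if i = l then gb j else el h hb (e i)).2.2) =
      Function.update (fun _ => h.2.2) l (gb j).2.2 := by
    ext i
    by_cases h1 : i = l
    · rw [if_pos h1, h1, Function.update_self]
    · rw [if_neg h1, Function.update_of_ne h1]
      exact el_z hB _
  rw [this]
  exact hZ.2 _ _ _ _

include hB in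
lemma GG_x (e : κ → Option J) (l : κ) (j : J) (hl : e l = none) :
    (GG wX wY wZ h hb gb e l j).1 = (EE wX wY wZ h hb e).1 := by
  change wX (fun i => (if i = l then gb j else el h hb (e i)).1) = wX (fun i => (el h hb (e i)).1)
  congr 1
  ext i
  by_cases h1 : i = l
  · rw [if_pos h1, h1, hl]
    exact hB.gb_x j
  · rw [if_neg h1]

include hB in
lemma GG_y (e : κ → Option J) (l : κ) (j : J) :
    (GG wX wY wZ h hb gb e l j).2.1 = (EE wX wY wZ h hb (Function.update e l (some j))).2.1 := by
  change wY (fun i => (if i = l then gb j else el h hb (e i)).2.1) =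
    wY (fun i => (el h hb (Function.update e l (some j) i)).2.1)
  congr 1
  ext i
  by_cases h1 : i = l
  · rw [if_pos h1, h1, Function.update_self]
    exact hB.gb_y j
  · rw [if_neg h1, Function.update_of_ne h1]

omit [Fintype J] in
lemma cnt_update {e : κ → Option J} {l : κ} {j : J} (hl : e l = none) :
    cnt (Function.update e l (some j)) + 1 = cnt e := by
  unfold cnt
  have h1 : (univ.filter fun i => (Function.update e l (some j) i).isNone) =
      (univ.filter fun i => (e i).isNone).erase l := by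
    ext i
    simp only [mem_filter, mem_univ, true_and, mem_erase]
    by_cases h1 : i = l
    · rw [h1, Function.update_self]
      simp
    · rw [Function.update_of_ne h1]
      simp [h1]
  have h2 : l ∈ univ.filter fun i => (e i).isNone := by
    rw [mem_filter]
    exact ⟨mem_univ _, by rw [hl]; rfl⟩
  rw [h1, card_erase_of_mem h2]
  have := card_pos.2 ⟨l, h2⟩
  omega

omit [Fintype J] in
lemma exists_none {e : κ → Option J} (h : 1 ≤ cnt e) : ∃ l, e l = none := by
  obtain ⟨l, hl⟩ := card_pos.1 h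
  exact ⟨l, Option.isNone_iff_eq_none.1 (mem_filter.1 hl).2⟩

/-- admissible sets of vertices of a level -/
def Okk (wX : (κ → X) → X) (wY : (κ → Y) → Y) (wZ : (κ → Z) → Z) (h : X × Y × Z)
    (hb gb : J → X × Y × Z) (l0 : κ) (lev : ℕ) (A : Finset X) (B : Finset Y) (C : Finset Z) : Prop :=
  A.Nonempty ∧ h.2.2 ∈ C ∧ 2 ≤ C.card ∧ (∀ a ∈ A, ∃ e, lev ≤ cnt e ∧ (EE wX wY wZ h hb e).1 = a) ∧
    (∀ b ∈ B, ∃ e, lev ≤ cnt e ∧ (EE wX wY wZ h hb e).2.1 = b) ∧
    ∀ z ∈ C, z = h.2.2 ∨ ∃ j, z = zeta wZ h gb l0 j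

/-- closed sets of vertices of a level -/
def Cldd (wX : (κ → X) → X) (wY : (κ → Y) → Y) (wZ : (κ → Z) → Z) (h : X × Y × Z)
    (hb gb : J → X × Y × Z) (l0 : κ) (lev : ℕ) (A : Finset X) (B : Finset Y) (C : Finset Z) : Prop :=
  (∀ e : κ → Option J, lev ≤ cnt e → (EE wX wY wZ h hb e).2.1 ∈ B → (EE wX wY wZ h hb e).1 ∈ A) ∧
  (∀ (e : κ → Option J) (l : κ) (j : J), e l = none → lev + 1 ≤ cnt e → (EE wX wY wZ h hb e).1 ∈ A →
    zeta wZ h gb l0 j ∈ C → (EE wX wY wZ h hb (Function.update e l (some j))).2.1 ∈ B) ∧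
  (∀ (e : κ → Option J) (l : κ) (j : J), e l = none → lev + 1 ≤ cnt e → (EE wX wY wZ h hb e).1 ∈ A →
    (EE wX wY wZ h hb (Function.update e l (some j))).2.1 ∈ B → zeta wZ h gb l0 j ∈ C)

include hcl hZ hB in
/-- closed sets have many triples -/
lemma closed_ineq {l0 : κ} {lev : ℕ} {A : Finset X} {B : Finset Y} {C : Finset Z}
    (hok : Okk wX wY wZ h hb gb l0 (lev + 1) A B C) (hc : Cldd wX wY wZ h hb gb l0 lev A B C) :
    A.card + B.card + C.card ≤ (In H A B C).card + 2 := by
  have hsum : (In H A B C).card = ∑ c ∈ C, ((In H A B C).filter fun g => g.2.2 = c).card :=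
    card_eq_sum_card_fiberwise fun g hg => (mem_In.1 hg).2.2.2
  have h1 : B.card ≤ ((In H A B C).filter fun g => g.2.2 = h.2.2).card := by
    refine (card_le_card ?_).trans (card_image_le (s := (In H A B C).filter fun g => g.2.2 = h.2.2)
      (f := fun g => g.2.1))
    intro b hb'
    obtain ⟨e, he, rfl⟩ := hok.2.2.2.2.1 b hb'
    refine mem_image.2 ⟨EE wX wY wZ h hb e, mem_filter.2 ⟨mem_In.2 ⟨EE_mem hcl hB e,
      hc.1 e (by omega) hb', hb', ?_⟩, EE_z hZ hB e⟩, rfl⟩
    rw [EE_z hZ hB]; exact hok.2.1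
  have h2 : ∀ c ∈ C.erase h.2.2, A.card ≤ ((In H A B C).filter fun g => g.2.2 = c).card := by
    intro c hcC
    rw [mem_erase] at hcC
    obtain ⟨j, rfl⟩ := (hok.2.2.2.2.2 c hcC.2).resolve_left hcC.1
    refine (card_le_card ?_).trans (card_image_le (s := (In H A B C).filter
      fun g => g.2.2 = zeta wZ h gb l0 j) (f := fun g => g.1))
    intro a ha
    obtain ⟨e, he, rfl⟩ := hok.2.2.2.1 a ha
    obtain ⟨l, hl⟩ := exists_none (show 1 ≤ cnt e by omega)
    have h3 := hc.2.1 e l j hl he ha hcC.2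
    refine mem_image.2 ⟨GG wX wY wZ h hb gb e l j, mem_filter.2 ⟨mem_In.2 ⟨GG_mem hcl hB e l j,
      ?_, ?_, ?_⟩, GG_z hZ hB l0 e l j⟩, GG_x hB e l j hl⟩
    · rw [GG_x hB e l j hl]; exact ha
    · rw [GG_y hB e l j]; exact h3
    · rw [GG_z hZ hB l0]; exact hcC.2
  have h3 : B.card + (C.card - 1) * A.card ≤ (In H A B C).card := by
    rw [hsum, ← add_sum_erase C _ hok.2.1]
    refine add_le_add h1 ?_
    rw [← card_erase_of_mem hok.2.1, ← smul_eq_mul, ← sum_const]
    exact sum_le_sum h2
  have hA : 1 ≤ A.card := card_pos.2 hok.1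
  obtain ⟨k, hk⟩ := Nat.exists_eq_add_of_le hok.2.2.1
  have h5 : (C.card - 1) * A.card = A.card + k * A.card := by
    rw [hk, show 2 + k - 1 = k + 1 by omega]; ring
  have h6 : k ≤ k * A.card := Nat.le_mul_of_pos_right k hA
  omega

omit [Fintype J] in
lemma okk_mono {l0 : κ} {lev lev' : ℕ} (hl : lev' ≤ lev) {A : Finset X} {B : Finset Y} {C : Finset Z}
    (hok : Okk wX wY wZ h hb gb l0 lev A B C) : Okk wX wY wZ h hb gb l0 lev' A B C := by
  refine ⟨hok.1, hok.2.1, hok.2.2.1, ?_, ?_, hok.2.2.2.2.2⟩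
  · intro a ha
    obtain ⟨e, he, h1⟩ := hok.2.2.2.1 a ha
    exact ⟨e, hl.trans he, h1⟩
  · intro a ha
    obtain ⟨e, he, h1⟩ := hok.2.2.2.2.1 a ha
    exact ⟨e, hl.trans he, h1⟩

include hcl hZ hB in
/-- adding one vertex -/
lemma step1 {l0 : κ} {lev : ℕ} {A : Finset X} {B : Finset Y} {C : Finset Z}
    (hok : Okk wX wY wZ h hb gb l0 (lev + 1) A B C) (hc : ¬ Cldd wX wY wZ h hb gb l0 lev A B C) :
    ∃ A' B' C', Okk wX wY wZ h hb gb l0 lev A' B' C' ∧
      A'.card + B'.card + C'.card = A.card + B.card + C.card + 1 ∧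
      (In H A B C).card + 1 ≤ (In H A' B' C').card := by
  have hok' := okk_mono (Nat.le_succ lev) hok
  unfold Cldd at hc
  rw [not_and_or, not_and_or] at hc
  rcases hc with hc | hc | hc
  · push Not at hc
    obtain ⟨e, he, h1, h2⟩ := hc
    refine ⟨insert (EE wX wY wZ h hb e).1 A, B, C, ⟨insert_nonempty _ _, hok.2.1, hok.2.2.1, ?_,
      hok'.2.2.2.2⟩, ?_, ?_⟩
    · intro a ha
      rcases mem_insert.1 ha with rfl | ha
      · exact ⟨e, he, rfl⟩
      · exact hok'.2.2.2.1 a ha
    · rw [card_insert_of_notMem h2]; omega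
    · exact In_lt (EE_mem hcl hB e) (subset_insert _ _) subset_rfl subset_rfl (mem_insert_self _ _) h1
        (by rw [EE_z hZ hB]; exact hok.2.1) fun h3 => h2 h3.1
  · push Not at hc
    obtain ⟨e, l, j, hl, he, h1, h2, h3⟩ := hc
    refine ⟨A, insert (EE wX wY wZ h hb (Function.update e l (some j))).2.1 B, C,
      ⟨hok.1, hok.2.1, hok.2.2.1, hok'.2.2.2.1, ?_, hok'.2.2.2.2.2⟩, ?_, ?_⟩
    · intro a ha
      rcases mem_insert.1 ha with rfl | ha
      · refine ⟨_, ?_, rfl⟩
        have := cnt_update (j := j) hl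
        omega
      · exact hok'.2.2.2.2.1 a ha
    · rw [card_insert_of_notMem h3]; omega
    · refine In_lt (GG_mem hcl hB e l j) subset_rfl (subset_insert _ _) subset_rfl ?_ ?_ ?_ ?_
      · rw [GG_x hB e l j hl]; exact h1
      · rw [GG_y hB e l j]; exact mem_insert_self _ _
      · rw [GG_z hZ hB l0]; exact h2
      · rw [GG_y hB e l j]; exact fun h4 => h3 h4.2.1
  · push Not at hc
    obtain ⟨e, l, j, hl, he, h1, h2, h3⟩ := hc
    refine ⟨A, B, insert (zeta wZ h gb l0 j) C,
      ⟨hok.1, mem_insert_of_mem hok.2.1, ?_, hok'.2.2.2.1, hok'.2.2.2.2.1, ?_⟩, ?_, ?_⟩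
    · rw [card_insert_of_notMem h3]; have := hok.2.2.1; omega
    · intro a ha
      rcases mem_insert.1 ha with rfl | ha
      · exact Or.inr ⟨j, rfl⟩
      · exact hok'.2.2.2.2.2 a ha
    · rw [card_insert_of_notMem h3]; omega
    · refine In_lt (GG_mem hcl hB e l j) subset_rfl subset_rfl (subset_insert _ _) ?_ ?_ ?_ ?_
      · rw [GG_x hB e l j hl]; exact h1
      · rw [GG_y hB e l j]; exact h2
      · rw [GG_z hZ hB l0]; exact mem_insert_self _ _
      · rw [GG_z hZ hB l0]; exact fun h4 => h3 h4.2.2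

include hcl hZ hB in
/-- adding a new label -/
lemma step2 {l0 : κ} {lev : ℕ} {A : Finset X} {B : Finset Y} {C : Finset Z}
    (hok : Okk wX wY wZ h hb gb l0 (lev + 1) A B C) (hc : Cldd wX wY wZ h hb gb l0 lev A B C)
    (hj : ∃ j, zeta wZ h gb l0 j ∉ C) :
    ∃ A' B' C', Okk wX wY wZ h hb gb l0 lev A' B' C' ∧
      A'.card + B'.card + C'.card = A.card + B.card + C.card + 2 ∧
      (In H A B C).card + 1 ≤ (In H A' B' C').card := by
  have hok' := okk_mono (Nat.le_succ lev) hok
  obtain ⟨j, hj⟩ := hj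
  obtain ⟨a, ha⟩ := hok.1
  obtain ⟨e, he, rfl⟩ := hok.2.2.2.1 a ha
  obtain ⟨l, hl⟩ := exists_none (show 1 ≤ cnt e by omega)
  have hB' : (EE wX wY wZ h hb (Function.update e l (some j))).2.1 ∉ B :=
    fun h1 => hj (hc.2.2 e l j hl he ha h1)
  refine ⟨A, insert (EE wX wY wZ h hb (Function.update e l (some j))).2.1 B,
    insert (zeta wZ h gb l0 j) C, ⟨hok.1, mem_insert_of_mem hok.2.1, ?_, hok'.2.2.2.1, ?_, ?_⟩, ?_, ?_⟩
  · rw [card_insert_of_notMem hj]; have := hok.2.2.1; omega
  · intro a ha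
    rcases mem_insert.1 ha with rfl | ha
    · refine ⟨_, ?_, rfl⟩
      have := cnt_update (j := j) hl
      omega
    · exact hok'.2.2.2.2.1 a ha
  · intro a ha
    rcases mem_insert.1 ha with rfl | ha
    · exact Or.inr ⟨j, rfl⟩
    · exact hok'.2.2.2.2.2 a ha
  · rw [card_insert_of_notMem hB', card_insert_of_notMem hj]; omega
  · refine In_lt (GG_mem hcl hB e l j) subset_rfl (subset_insert _ _) (subset_insert _ _) ?_ ?_ ?_ ?_
    · rw [GG_x hB e l j hl]; exact ha
    · rw [GG_y hB e l j]; exact mem_insert_self _ _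
    · rw [GG_z hZ hB l0]; exact mem_insert_self _ _
    · rw [GG_z hZ hB l0]; exact fun h4 => hj h4.2.2

include hcl hZ hB in
/-- growth -/
lemma grow {l0 : κ} {s : ℕ} (hs : 2 ≤ s) (hκ : s ≤ Fintype.card κ)
    (hlab : ∀ C : Finset Z, C.card ≤ s + 1 → ∃ j, zeta wZ h gb l0 j ∉ C) : ¬ Sparse s H := by
  intro hsp
  have key : ∀ t, t + 2 ≤ s → ∃ A B C, Okk wX wY wZ h hb gb l0 (Fintype.card κ + 1 - (t + 2)) A B C ∧
      A.card + B.card + C.card ≤ t + 5 ∧ t + 2 ≤ (In H A B C).card := by
    intro t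
    induction t with
    | zero =>
      intro _
      obtain ⟨j, hj⟩ := hlab {h.2.2} (by rw [card_singleton]; omega)
      rw [mem_singleton] at hj
      have hcnt : cnt (fun _ : κ => (none : Option J)) = Fintype.card κ := by
        unfold cnt
        simp
      have hl := cnt_update (e := fun _ : κ => (none : Option J)) (l := l0) (j := j) rfl
      rw [hcnt] at hl
      set e0 : κ → Option J := fun _ => none with he0
      set y' := (EE wX wY wZ h hb (Function.update e0 l0 (some j))).2.1 with hy'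
      refine ⟨{(EE wX wY wZ h hb e0).1}, {(EE wX wY wZ h hb e0).2.1, y'}, {h.2.2, zeta wZ h gb l0 j},
        ⟨singleton_nonempty _, mem_insert_self _ _, ?_, ?_, ?_, ?_⟩, ?_, ?_⟩
      · rw [card_pair (Ne.symm hj)]
      · intro a ha
        rw [mem_singleton] at ha
        exact ⟨e0, by omega, ha.symm⟩
      · intro a ha
        rcases mem_insert.1 ha with rfl | ha
        · exact ⟨e0, by omega, rfl⟩
        · rw [mem_singleton] at ha
          exact ⟨_, by omega, ha.symm⟩
      · intro a ha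
        rcases mem_insert.1 ha with rfl | ha
        · exact Or.inl rfl
        · rw [mem_singleton] at ha
          exact Or.inr ⟨j, ha⟩
      · have h1 : ({(EE wX wY wZ h hb e0).2.1, y'} : Finset Y).card ≤ 2 := card_le_two
        have h2 : ({h.2.2, zeta wZ h gb l0 j} : Finset Z).card ≤ 2 := card_le_two
        rw [card_singleton]
        omega
      · have h1 : (In H {(EE wX wY wZ h hb e0).1} {(EE wX wY wZ h hb e0).2.1, y'} {h.2.2}).card + 1 ≤
            (In H {(EE wX wY wZ h hb e0).1} {(EE wX wY wZ h hb e0).2.1, y'}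
              {h.2.2, zeta wZ h gb l0 j}).card := by
          refine In_lt (GG_mem hcl hB e0 l0 j) subset_rfl subset_rfl ?_ ?_ ?_ ?_ ?_
          · exact singleton_subset_iff.2 (mem_insert_self _ _)
          · rw [GG_x hB e0 l0 j rfl]; exact mem_singleton_self _
          · rw [GG_y hB e0 l0 j]; exact mem_insert_of_mem (mem_singleton_self _)
          · rw [GG_z hZ hB l0]; exact mem_insert_of_mem (mem_singleton_self _)
          · rw [GG_z hZ hB l0]
            rintro ⟨-, -, h4⟩
            exact hj (mem_singleton.1 h4)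
        have h2 : 0 < (In H {(EE wX wY wZ h hb e0).1} {(EE wX wY wZ h hb e0).2.1, y'} {h.2.2}).card :=
          card_pos.2 ⟨EE wX wY wZ h hb e0, mem_In.2 ⟨EE_mem hcl hB e0, mem_singleton_self _,
            mem_insert_self _ _, by rw [EE_z hZ hB]; exact mem_singleton_self _⟩⟩
        omega
    | succ t ih =>
      intro ht
      obtain ⟨A, B, C, hok, h1, h2⟩ := ih (by omega)
      obtain ⟨lev, hlev⟩ : ∃ lev, Fintype.card κ + 1 - (t + 2) = lev + 1 :=
        ⟨Fintype.card κ + 1 - (t + 2) - 1, by omega⟩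
      have hlev' : Fintype.card κ + 1 - (t + 1 + 2) = lev := by omega
      rw [hlev] at hok
      rw [hlev']
      by_cases hc : Cldd wX wY wZ h hb gb l0 lev A B C
      · by_cases h3 : A.card + B.card + C.card ≤ t + 4
        · have hA : 1 ≤ A.card := card_pos.2 hok.1
          obtain ⟨A', B', C', hok', h4, h5⟩ := step2 hZ hcl hB hok hc (hlab C (by omega))
          exact ⟨A', B', C', hok', by omega, by omega⟩
        · have h4 := closed_ineq hZ hcl hB hok hc
          exact ⟨A, B, C, okk_mono (Nat.le_succ lev) hok, by omega, by omega⟩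
      · obtain ⟨A', B', C', hok', h4, h5⟩ := step1 hZ hcl hB hok hc
        exact ⟨A', B', C', hok', by omega, by omega⟩
  obtain ⟨A, B, C, -, h1, h2⟩ := key (s - 2) (by omega)
  have h3 := hsp.In_lt (A := A) (B := B) (C := C) (by omega)
  omega

include hX hY hZ hcl hB in
/-- every label is the label of fewer than `s` indices -/
lemma label_mult {l0 : κ} {s : ℕ} (hs : 1 ≤ s) (hsp : Sparse s H) (z : Z) :
    (univ.filter fun j => zeta wZ h gb l0 j = z).card < s := by
  classical
  by_contra hcon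
  push Not at hcon
  set H' := H.filter fun g => g.2.2 = h.2.2 ∨ g.2.2 = z with hH'
  set Co := H'.filter fun g => ReflTransGen (R H') h g with hCo
  have hh' : h ∈ H' := mem_filter.2 ⟨hB.h_mem, Or.inl rfl⟩
  have hEmem : ∀ e : κ → Option J, EE wX wY wZ h hb e ∈ H' := fun e =>
    mem_filter.2 ⟨EE_mem hcl hB e, Or.inl (EE_z hZ hB e)⟩
  have hW : ∀ a : X × Y × Z, W wX wY wZ (fun _ => a) = a := fun a =>
    Prod.ext (hX _) (Prod.ext (hY _) (hZ.1 _))
  have key : ∀ j, zeta wZ h gb l0 j = z → hb j ∈ Co := by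
    intro j hj
    have h1 : ∀ I : Finset κ, ReflTransGen (R H') h
        (EE wX wY wZ h hb fun i => if i ∈ I then some j else none) := by
      intro I
      induction I using Finset.induction_on with
      | empty =>
        have : EE wX wY wZ h hb (fun i : κ => if i ∈ (∅ : Finset κ) then some j else none) = h := by
          simp only [notMem_empty, if_false]
          exact hW h
        rw [this]
      | insert l I hl ih =>
        have hel : (fun i => if i ∈ I then some j else none) l = none := by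
          simp only [if_neg hl]
        have hG : GG wX wY wZ h hb gb (fun i => if i ∈ I then some j else none) l j ∈ H' :=
          mem_filter.2 ⟨GG_mem hcl hB _ l j, Or.inr ((GG_z hZ hB l0 _ l j).trans hj)⟩
        have hup : Function.update (fun i => if i ∈ I then some j else none) l (some j) =
            fun i => if i ∈ insert l I then some j else none := by
          ext1 i
          by_cases h2 : i = l
          · rw [h2, Function.update_self, if_pos (mem_insert_self _ _)]
          · rw [Function.update_of_ne h2]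
            by_cases h3 : i ∈ I
            · rw [if_pos h3, if_pos (mem_insert_of_mem h3)]
            · rw [if_neg h3, if_neg (by rw [mem_insert, not_or]; exact ⟨h2, h3⟩)]
        refine (ih.tail ⟨hEmem _, hG, Or.inl (GG_x hB _ l j hel).symm⟩).tail ⟨hG, hEmem _, Or.inr ?_⟩
        rw [GG_y hB, hup]
    have h2 := h1 univ
    have h3 : EE wX wY wZ h hb (fun i : κ => if i ∈ (univ : Finset κ) then some j else none) = hb j := by
      simp only [mem_univ, if_true]
      exact hW (hb j)
    rw [h3] at h2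
    exact mem_filter.2 ⟨mem_filter.2 ⟨hB.hb_mem j, Or.inl (hB.hb_z j)⟩, h2⟩
  have hcard : s ≤ Co.card := by
    refine hcon.trans ?_
    rw [← card_image_of_injective (univ.filter fun j => zeta wZ h gb l0 j = z)
      (f := hb) (fun a b hab => hB.inj (congrArg (fun g : X × Y × Z => g.2.1) hab))]
    refine card_le_card fun g hg => ?_
    obtain ⟨j, hj, rfl⟩ := mem_image.1 hg
    exact key j (mem_filter.1 hj).2
  obtain ⟨T, hT, hTc, -, hTv⟩ := exists_tree (H := H') Co (mem_filter.2 ⟨hh', ReflTransGen.refl⟩)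
    (fun g hg => (mem_filter.1 hg).2) (fun g hg => mem_filter.2 ⟨RR.mem hh' hg, hg⟩) (s - 1) (by omega)
  · have h1 := hsp T (fun g hg => (mem_filter.1 (mem_filter.1 (hT hg)).1).1) (by omega)
    have h2 : (T.image fun g => g.2.2).card ≤ 2 := by
      refine (card_le_card (t := {h.2.2, z}) ?_).trans card_le_two
      intro c hc
      obtain ⟨g, hg, rfl⟩ := mem_image.1 hc
      rcases (mem_filter.1 (mem_filter.1 (hT hg)).1).2 with h3 | h3
      · rw [h3]; exact mem_insert_self _ _
      · rw [h3]; exact mem_insert_of_mem (mem_singleton_self _)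
    omega

include hX hY hZ hcl hB in
/-- books are small -/
theorem book_small {s : ℕ} (hs : 1 ≤ s) (hκ : s ≤ Fintype.card κ) (hsp : Sparse s H) :
    Fintype.card J ≤ (s - 1) * (s + 1) := by
  classical
  obtain ⟨l0⟩ : Nonempty κ := Fintype.card_pos_iff.1 (by omega)
  rcases Nat.lt_or_ge s 2 with h1 | h1
  · have h2 : s = 1 := by omega
    subst h2
    have h3 := hsp {h} (singleton_subset_iff.2 hB.h_mem) (card_singleton _)
    simp at h3
  by_contra hcon
  push Not at hcon
  refine grow (l0 := l0) hZ hcl hB h1 hκ ?_ hsp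
  intro C hC
  by_contra hno
  push Not at hno
  have h2 : Fintype.card J ≤ ∑ z ∈ C, (univ.filter fun j => zeta wZ h gb l0 j = z).card := by
    rw [← card_univ]
    exact (card_eq_sum_card_fiberwise fun j _ => hno j).le
  have h3 : ∑ z ∈ C, (univ.filter fun j => zeta wZ h gb l0 j = z).card ≤ C.card * (s - 1) := by
    rw [← smul_eq_mul, ← sum_const]
    refine sum_le_sum fun z _ => ?_
    have := label_mult (l0 := l0) hX hY hZ hcl hB hs hsp z
    omega
  have h4 : C.card * (s - 1) ≤ (s + 1) * (s - 1) := Nat.mul_le_mul_right _ hC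
  rw [mul_comm (s + 1)] at h4
  omega

end

end Q112.WN
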